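import Pool.Agent.Work.MP_4eca41_an.L.Leg2
import Pool.Agent.Work.MP_4eca41_an.T.T1

/-!
# D1C: partial Legendre transform of a semiconcave function  (paper D1)

`F` continuous, `Low F`, `F z ≤ C (1 + sq z) + 1` (so `≤ (C+1)(1 + sq z)`), `D2 F v z ≤ M sq v`.
PROOF.  `sc_upp`: let `x` attain `PL F y` (`pl_attained`), `ξ = v.1/M`: `PL F (y ± v) ≤ F (x ± ξ, y.2 ± v.2) - (y.1 ± v.1)(x ± ξ)` (`pl_le`); the sum is
`≤ 2 F (x, y.2) + M (ξ^2 + v.2^2) - 2 y.1 x - 2 v.1 ξ = 2 PL F y + M v.2^2 - v.1^2/M`.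
`sc_continuous`: `t2_continuous` with constant `M`: `PL F` is concave in `p` (`pl_conc`), and for fixed `p`, `t ↦ PL F (p,t) - (M/2) t^2` is concave: it is the infimum over `x` of
`F (x,t) - p x - (M/2) t^2`, each concave in `t` (continuous with second differences `≤ 0`); locally bounded by `Low F` and the upper bound.
`sc_gr`: `pl_upper` and `PL F ≥ inf_x (c (x^2 + t^2) - C' - p x) = c t^2 - C' - p^2/(4c)`; `GrW` with suitable constants.
`sc_local` (local bound for the second difference in `p`): if `m` is a function with `F ≤ m` everywhere (a member), `F (x, y.2) = m (x, y.2)` at a minimizer `x` of `F (·, y.2) - y.1 ·`, and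
`D2 m (ξ, 0) (x, y.2) ≤ A ξ^2` with `A > 0` for `|ξ| ≤ δ`, then for `|h| ≤ A δ`: `D2 (PL F) (h, 0) y ≤ - h^2/A` (same computation with `ξ = h/A`).
-/

set_option autoImplicit false

open Set MeasureTheory

namespace Pool.Agent.MP_4eca41

private theorem pl_low_aux (F : ℝ × ℝ → ℝ) (c C : ℝ) (hc : 0 < c) (h : ∀ z, c * sq z - C ≤ F z)
    (y : ℝ × ℝ) : c * y.2 ^ 2 - C - y.1 ^ 2 / (4 * c) ≤ PL F y := by
  refine le_pl F y _ fun x => ?_
  have h1 := h (x, y.2)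
  simp only [sq] at h1
  have h2 : 0 ≤ c * (x - y.1 / (2 * c)) ^ 2 := by positivity
  have e : c * (x - y.1 / (2 * c)) ^ 2 = c * x ^ 2 - y.1 * x + y.1 ^ 2 / (4 * c) := by
    field_simp
    ring
  rw [e] at h2
  linarith

theorem sc_upp (F : ℝ × ℝ → ℝ) (hc : Continuous F) (hl : Low F) (M : ℝ) (hM : 0 < M)
    (hD : ∀ v z, D2 F v z ≤ M * sq v) (v y : ℝ × ℝ) :
    D2 (PL F) v y ≤ M * v.2 ^ 2 - v.1 ^ 2 / M := by
  obtain ⟨x, hx⟩ := pl_attained F hc hl y
  have h1 := pl_le F hl (y + v) (x + v.1 / M)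
  have h2 := pl_le F hl (y - v) (x - v.1 / M)
  have h3 := hD (v.1 / M, v.2) (x, y.2)
  unfold D2 at h3 ⊢
  simp only [Prod.fst_add, Prod.snd_add, Prod.fst_sub, Prod.snd_sub] at h1 h2
  have e1 : ((x, y.2) : ℝ × ℝ) + (v.1 / M, v.2) = (x + v.1 / M, y.2 + v.2) := rfl
  have e2 : ((x, y.2) : ℝ × ℝ) - (v.1 / M, v.2) = (x - v.1 / M, y.2 - v.2) := rfl
  rw [e1, e2] at h3
  simp only [sq] at h3
  have e3 : (y.1 + v.1) * (x + v.1 / M) + (y.1 - v.1) * (x - v.1 / M) =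
      2 * (y.1 * x) + 2 * (v.1 ^ 2 / M) := by
    field_simp
    ring
  have e4 : M * ((v.1 / M) ^ 2 + v.2 ^ 2) = v.1 ^ 2 / M + M * v.2 ^ 2 := by
    field_simp
  rw [e4] at h3
  linarith

theorem sc_continuous (F : ℝ × ℝ → ℝ) (hc : Continuous F) (hl : Low F) (M C : ℝ) (hM : 0 < M)
    (hC : 0 < C) (hD : ∀ v z, D2 F v z ≤ M * sq v) (hu : ∀ z, F z ≤ C * (1 + sq z)) :
    Continuous (PL F) := by
  refine t2_continuous M hM.le (PL F) ?_ ?_ ?_
  · intro t
    right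
    have h1 := pl_conc F hl t
    refine ⟨convex_univ, fun p _ p' _ a b ha hb hab => ?_⟩
    have h2 := h1.2 (mem_univ p) (mem_univ p') ha hb hab
    simp only [smul_eq_mul] at h2 ⊢
    have hb' : b = 1 - a := by linarith
    subst hb'
    have h3 : 0 ≤ M * (a * (1 - a) * (p - p') ^ 2) := by positivity
    nlinarith
  · intro p
    right
    have hx : ∀ x : ℝ, ConcaveOn ℝ univ fun t => F (x, t) - p * x - M * t ^ 2 := by
      intro x
      have h1 : ConvexOn ℝ univ fun t => -(F (x, t) - p * x - M * t ^ 2) := by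
        refine t1_convex _ (by fun_prop) ?_
        intro t κ hκ
        refine ⟨1, one_pos, fun h _ _ => ?_⟩
        have h2 := hD (0, h) (x, t)
        unfold D2 at h2
        have e1 : ((x, t) : ℝ × ℝ) + (0, h) = (x, t + h) := by
          ext <;> simp
        have e2 : ((x, t) : ℝ × ℝ) - (0, h) = (x, t - h) := by
          ext <;> simp
        rw [e1, e2] at h2
        simp only [sq] at h2
        unfold d2
        have h3 : 0 ≤ κ * h ^ 2 := by positivity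
        have h4 : 0 ≤ M * h ^ 2 := by positivity
        nlinarith
      have h2 := h1.neg
      refine h2.congr fun t _ => ?_
      simp only [Pi.neg_apply, neg_neg]
    refine ⟨convex_univ, fun t _ t' _ a b ha hb hab => ?_⟩
    obtain ⟨x, hx1⟩ := pl_attained F hc hl (p, a • t + b • t')
    have h1 := (hx x).2 (mem_univ t) (mem_univ t') ha hb hab
    have h2 := pl_le F hl (p, t) x
    have h3 := pl_le F hl (p, t') x
    simp only [smul_eq_mul] at h1 h2 h3 hx1 ⊢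
    rw [hx1]
    have h4 := mul_le_mul_of_nonneg_left h2 ha
    have h5 := mul_le_mul_of_nonneg_left h3 hb
    linarith
  · intro R
    obtain ⟨cl, Cl, hcl, hlow⟩ := hl
    refine ⟨C * (1 + R ^ 2) + |Cl| + R ^ 2 / (4 * cl), fun y h1 h2 => ?_⟩
    have h3 := pl_low_aux F cl Cl hcl hlow y
    have h4 := pl_upper F ⟨cl, Cl, hcl, hlow⟩ C hC hu y
    have h5 : y.1 ^ 2 ≤ R ^ 2 := by
      rw [← sq_abs]
      exact pow_le_pow_left₀ (abs_nonneg _) h1 2
    have h6 : y.2 ^ 2 ≤ R ^ 2 := by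
      rw [← sq_abs]
      exact pow_le_pow_left₀ (abs_nonneg _) h2 2
    have h7 : y.1 ^ 2 / (4 * cl) ≤ R ^ 2 / (4 * cl) := by gcongr
    have h8 : 0 ≤ y.1 ^ 2 / (4 * C) := by positivity
    have h9 : C * (1 + y.2 ^ 2) ≤ C * (1 + R ^ 2) := by gcongr
    have h10 : 0 ≤ R ^ 2 / (4 * cl) := by positivity
    have h11 : 0 ≤ cl * y.2 ^ 2 := by positivity
    have h12 := le_abs_self Cl
    have h13 : 0 ≤ C * (1 + R ^ 2) := by positivity
    have h14 := abs_nonneg Cl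
    rw [abs_le]
    constructor <;> linarith

theorem sc_gr (F : ℝ × ℝ → ℝ) (hc : Continuous F) (hl : Low F) (C : ℝ)
    (hC : 0 < C) (hu : ∀ z, F z ≤ C * (1 + sq z)) : GrW (PL F) := by
  obtain ⟨cl, Cl, hcl, hlow⟩ := hl
  refine ⟨min cl (1 / (4 * C)), max C (max |Cl| (1 / (4 * cl))), lt_min hcl (by positivity),
    fun y => ⟨?_, ?_⟩⟩
  · have h3 := pl_low_aux F cl Cl hcl hlow y
    have h1 : min cl (1 / (4 * C)) * y.2 ^ 2 ≤ cl * y.2 ^ 2 :=
      mul_le_mul_of_nonneg_right (min_le_left _ _) (sq_nonneg _)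
    have h2 : (1 / (4 * cl)) * y.1 ^ 2 ≤ max C (max |Cl| (1 / (4 * cl))) * y.1 ^ 2 :=
      mul_le_mul_of_nonneg_right ((le_max_right _ _).trans (le_max_right _ _)) (sq_nonneg _)
    have h4 : Cl ≤ max C (max |Cl| (1 / (4 * cl))) :=
      (le_abs_self Cl).trans ((le_max_left _ _).trans (le_max_right _ _))
    have e : y.1 ^ 2 / (4 * cl) = (1 / (4 * cl)) * y.1 ^ 2 := by ring
    rw [e] at h3
    linarith
  · have h4 := pl_upper F ⟨cl, Cl, hcl, hlow⟩ C hC hu y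
    have h1 : min cl (1 / (4 * C)) * y.1 ^ 2 ≤ (1 / (4 * C)) * y.1 ^ 2 :=
      mul_le_mul_of_nonneg_right (min_le_right _ _) (sq_nonneg _)
    have h2 : C * (1 + y.2 ^ 2) ≤ max C (max |Cl| (1 / (4 * cl))) * (1 + y.2 ^ 2) :=
      mul_le_mul_of_nonneg_right (le_max_left _ _) (by positivity)
    have e : y.1 ^ 2 / (4 * C) = (1 / (4 * C)) * y.1 ^ 2 := by ring
    rw [e] at h4
    linarith

theorem sc_local (F : ℝ × ℝ → ℝ) (hl : Low F) (m : ℝ × ℝ → ℝ) (hm : ∀ z, F z ≤ m z)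
    (y : ℝ × ℝ) (x : ℝ) (hx : PL F y = m (x, y.2) - y.1 * x) (A δ : ℝ) (hA : 0 < A) (hδ : 0 < δ)
    (hD : ∀ ξ : ℝ, |ξ| ≤ δ → D2 m (ξ, 0) (x, y.2) ≤ A * ξ ^ 2) (h : ℝ) (hh : |h| ≤ A * δ) :
    D2 (PL F) (h, 0) y ≤ -h ^ 2 / A := by
  have hξ : |h / A| ≤ δ := by
    rw [abs_div, abs_of_pos hA, div_le_iff₀ hA]
    linarith
  have h3 := hD (h / A) hξ
  have h1 := (pl_le F hl (y + (h, 0)) (x + h / A)).trans (sub_le_sub_right (hm _) _)
  have h2 := (pl_le F hl (y - (h, 0)) (x - h / A)).trans (sub_le_sub_right (hm _) _)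
  unfold D2 at h3 ⊢
  simp only [Prod.fst_add, Prod.snd_add, Prod.fst_sub, Prod.snd_sub, add_zero, sub_zero] at h1 h2
  have e1 : ((x, y.2) : ℝ × ℝ) + (h / A, 0) = (x + h / A, y.2) := by
    ext <;> simp
  have e2 : ((x, y.2) : ℝ × ℝ) - (h / A, 0) = (x - h / A, y.2) := by
    ext <;> simp
  rw [e1, e2] at h3
  have e3 : (y.1 + h) * (x + h / A) + (y.1 - h) * (x - h / A) =
      2 * (y.1 * x) + 2 * (h ^ 2 / A) := by
    field_simp
    ring
  have e4 : A * (h / A) ^ 2 = h ^ 2 / A := by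
    field_simp
  have e5 : -h ^ 2 / A = -(h ^ 2 / A) := by ring
  rw [e4] at h3
  rw [e5, hx]
  linarith

end Pool.Agent.MP_4eca41
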