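import Pool.Agent.Work.MP_4eca41_an.D.D1B
import Pool.Agent.Work.MP_4eca41_an.D.D1C

/-!
# D1D: the upper barrier near `S`  (paper D1, items up and near)

Setting as in blockD1, `ft = PU W0`, `F = FF …`, `Φ = PL F`, `S = Phi J '' K1`.

PROOF of `d1_up`.  `y = Phi J z1 = (p, t1)`, `z1 = (x1, t1) ∈ K1`, `v`, `ξ = (v.1 - J.b z1 v.2)/J.a z1`.  `Φ (y+v) ≤ F (x1+ξ, t1+v.2) - (p+v.1)(x1+ξ) ≤ mem1 z1 (x1+ξ, t1+v.2) - (p+v.1)(x1+ξ)`
`= f z1 + J.q z1 (ξ, v.2) + θ (ξ, v.2) - (p+v.1)(x1+ξ) = (f z1 - p x1) + JW.q y v + θ (ξ, v.2)` (with `p = J.p z1`, `JW.p = -x1`, `JW.s = J.s z1`, `JW.a = -1/a`, `JW.b = b/a`, `JW.c = 0`, `c = b^2/a`), and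
`f z1 - p x1 = PL f y`.  `|(ξ, v.2)| ≤ K |v|` with `K` uniform on `K1` (`J.a ≥ a0 > 0`), so `θ (ξ, v.2) ≤ κ sq v` for small `v` (θs).

PROOF of `d1_near`.  By contradiction and compactness.  Claim: for every `δ1 > 0` there is `δ2 > 0` such that for `y0 = Phi J z1`, `z1 ∈ K1`, `y ∈ cb y0 δ2`, and `x` with `Φ y = F (x, y.2) - y.1 x`:
there is `z1' ∈ K1` with `F (x, y.2) = mem1 z1' (x, y.2)`, `sq ((x, y.2) - z1') ≤ δ1^2`, `sq (z1' - z1) ≤ δ1^2`.  Otherwise there are sequences `z1^n → z1` (in `K1`), `y^n → y0 = Phi J z1` (continuity of `J.p` on `K1`), minimizers `x^n`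
for which no such point exists.  `x^n` is bounded (`Low F`, `Φ` locally bounded).  By `ff_attained` the value `F (x^n, ·)` is a member; pass to subsequences: `x^n → x`, the same kind of member for all `n`, its base point converges
(in `K1` or `K'`).  Limit: `F (x, t) = ` that member at the limit, and `F (x,t) - p x = Φ y0 = PL f y0` (`Φ` continuous (`sc_continuous`), `Φ = PL f` on `S`: hypothesis `heq`), `y0 = (p,t)`.
 - second kind: `F (x,t) ≥ ft (x,t) + η/2`, but `ft (x,t) - p x ≥ W0 y0 = PL f y0` (`le_pu`): contradiction.  third kind: `F (x,t) ≥ f (x,t) + 1`, `f (x,t) - p x ≥ PL f y0`: contradiction.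
 - first kind, base point `z'`: `PL f y0 = mem1 z' (x,t) - p x ≥ f (x,t) + θ ((x,t) - z')/2 - p x ≥ PL f y0 + θ(…)/2`: so `θ ((x,t) - z') = 0`, `z' = (x,t)` (θpos) and `x` minimizes `f (·,t) - p ·`, so `x = z1.1` by uniqueness (`exp_pl_at`):
   `z' = (x,t) = z1`.  So for large `n` the base point and `(x^n, y^n.2)` are within `δ1` of `z1^n`: contradiction.
Given `κ`: choose `κ'` with `-1/(a + κ') ≤ -1/a + κ/2` for all values `a = J.a z1 ∈ [a0, a1]`; `J.a z1' ≤ J.a z1 + κ'/2` if `z1'` is close to `z1` (uniform continuity of `J.a` on `K1`), and `D2 (mem1 z1') (ξ,0) (x,y.2) = J.a z1' ξ^2 + D2 θ (ξ,0) ((x,y.2) - z1')`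
`≤ (J.a z1 + κ') ξ^2` for `|ξ| ≤ δ'` (θD).  `sc_local` gives `D2 Φ (h,0) y ≤ -h^2/(J.a z1 + κ') ≤ (JW.a y0 + κ) h^2` for small `h`.
-/

set_option autoImplicit false

open Set MeasureTheory

namespace Pool.Agent.MP_4eca41

private theorem uc_near {E : Type*} [PseudoMetricSpace E] (G : E → ℝ) (hG : Continuous G)
    (K : Set E) (hK : IsCompact K) (ε : ℝ) (hε : 0 < ε) :
    ∃ δ : ℝ, 0 < δ ∧ ∀ x ∈ K, ∀ y, dist x y < δ → |G y - G x| < ε := by
  have h := hK.uniformContinuousAt_of_continuousAt G (fun a _ => hG.continuousAt)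
    (Metric.dist_mem_uniformity hε)
  obtain ⟨δ, hδ, h⟩ := Metric.mem_uniformity_dist.1 h
  refine ⟨δ, hδ, fun x hx y hxy => ?_⟩
  have := h hxy
  simp only [Set.mem_ofPred_eq] at this
  have h2 := this hx
  rw [dist_comm, Real.dist_eq] at h2
  exact h2

private theorem sq_abs_le (v : ℝ × ℝ) (δ : ℝ) (hδ : 0 ≤ δ) (h : sq v ≤ δ ^ 2) :
    |v.1| ≤ δ ∧ |v.2| ≤ δ := by
  unfold sq at h
  exact ⟨abs_le_of_sq_le_sq (by nlinarith [sq_nonneg v.2]) hδ,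
    abs_le_of_sq_le_sq (by nlinarith [sq_nonneg v.1]) hδ⟩

private theorem bounds (f : ℝ × ℝ → ℝ) (K1 : Set (ℝ × ℝ)) (hK1 : IsCompact K1) (J : Jets)
    (hE : Exp2 f K1 J) (h1 : ∀ z ∈ K1, 0 < J.a z ∧ J.a z * J.c z = J.b z ^ 2) :
    ∃ a0 B : ℝ, 0 < a0 ∧ 0 ≤ B ∧ ∀ z ∈ K1, a0 ≤ J.a z ∧ J.b z ^ 2 ≤ B := by
  rcases K1.eq_empty_or_nonempty with rfl | hne
  · exact ⟨1, 0, one_pos, le_rfl, fun z hz => absurd hz (notMem_empty z)⟩
  obtain ⟨za, hza, ha⟩ := hK1.exists_isMinOn hne hE.ca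
  obtain ⟨zb, hzb, hb⟩ := hK1.exists_isMaxOn hne (hE.cb.pow 2)
  refine ⟨J.a za, J.b zb ^ 2, (h1 za hza).1, sq_nonneg _, fun z hz => ⟨ha hz, ?_⟩⟩
  have := hb hz
  simpa using this

private theorem base (f : ℝ × ℝ → ℝ) (hf : ConvexOn ℝ univ f) (hg : Gr f)
    (K1 : Set (ℝ × ℝ)) (hK1 : IsCompact K1) (J : Jets) (hE : Exp2 f K1 J) (JW : Jets)
    (W0 : ℝ × ℝ → ℝ) (h0 : W0P (PL f) W0 (Phi J '' K1) JW)
    (K' : Set (ℝ × ℝ)) (hK' : IsCompact K') (θ : ℝ × ℝ → ℝ) (η M' C M : ℝ)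
    (h : MemF f (PU W0) K1 K' J θ η M' C M) :
    ConvexOn ℝ univ (PU W0) ∧ (∀ z, PU W0 z ≤ f z) ∧ Low (FF f (PU W0) K1 K' J θ η M' C) := by
  have hG := pl_gr f hg
  have hft : ConvexOn ℝ univ (PU W0) := pu_conv W0 h0.gr h0.conv
  have hle : ∀ z, PU W0 z ≤ f z := by
    intro z
    have h2 := pu_le_add W0 (PL f) hG 0 (fun y => by simpa using h0.le y) z
    rw [pu_pl f hf hg z] at h2
    simpa using h2
  obtain ⟨c, C', hc, hlow⟩ := pu_lower W0 h0.gr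
  exact ⟨hft, hle, c, C', hc, fun z => (hlow z).trans
    (ff_le f hf K1 hK1 J hE (PU W0) hft hle K' hK' θ η M' C M h z).2.2.2⟩

theorem d1_up (f : ℝ × ℝ → ℝ) (hf : ConvexOn ℝ univ f) (hg : Gr f)
    (K1 : Set (ℝ × ℝ)) (hK1 : IsCompact K1) (J : Jets) (hE : Exp2 f K1 J)
    (h1 : ∀ z ∈ K1, 0 < J.a z ∧ J.a z * J.c z = J.b z ^ 2)
    (JW : Jets) (hJW : ∀ z ∈ K1, PL f (Phi J z) = f z - J.p z * z.1 ∧ JW.p (Phi J z) = -z.1 ∧
        JW.s (Phi J z) = J.s z ∧ JW.a (Phi J z) = -1 / J.a z ∧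
        JW.b (Phi J z) = J.b z / J.a z ∧ JW.c (Phi J z) = 0)
    (W0 : ℝ × ℝ → ℝ) (h0 : W0P (PL f) W0 (Phi J '' K1) JW)
    (K' : Set (ℝ × ℝ)) (hK' : IsCompact K') (θ : ℝ × ℝ → ℝ) (η M' C M : ℝ)
    (h : MemF f (PU W0) K1 K' J θ η M' C M) :
    ∀ κ : ℝ, 0 < κ → ∃ δ : ℝ, 0 < δ ∧ ∀ y ∈ Phi J '' K1, ∀ v : ℝ × ℝ, sq v ≤ δ ^ 2 →
      PL (FF f (PU W0) K1 K' J θ η M' C) (y + v) ≤ PL f y + JW.q y v + κ * sq v := by
  intro κ hκ
  obtain ⟨hft, hle, hl⟩ := base f hf hg K1 hK1 J hE JW W0 h0 K' hK' θ η M' C M h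
  obtain ⟨a0, B, ha0, hB, hab⟩ := bounds f K1 hK1 J hE h1
  set K : ℝ := 2 * (1 + B) / a0 ^ 2 + 1 with hK
  have hK1' : 1 ≤ K := by
    have : 0 ≤ 2 * (1 + B) / a0 ^ 2 := by positivity
    linarith
  have hKpos : 0 < K := by linarith
  obtain ⟨δ', hδ', hθ⟩ := h.θs (κ / K) (by positivity)
  refine ⟨δ' / K, by positivity, ?_⟩
  rintro _ ⟨z, hz, rfl⟩ v hv
  obtain ⟨haz, hbz⟩ := hab z hz
  obtain ⟨hapos, hac⟩ := h1 z hz
  obtain ⟨e1, e2, e3, e4, e5, e6⟩ := hJW z hz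
  set ξ : ℝ := (v.1 - J.b z * v.2) / J.a z with hξ
  have hsq : sq (ξ, v.2) ≤ K * sq v := by
    have h2 : ξ ^ 2 ≤ 2 * (1 + B) / a0 ^ 2 * sq v := by
      rw [hξ, div_pow, div_mul_eq_mul_div]
      have h3 : (v.1 - J.b z * v.2) ^ 2 ≤ 2 * (1 + B) * sq v := by
        unfold sq
        nlinarith [sq_nonneg (v.1 + J.b z * v.2), mul_le_mul_of_nonneg_right hbz (sq_nonneg v.2),
          mul_nonneg hB (sq_nonneg v.1), sq_nonneg v.2, sq_nonneg v.1]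
      have h4 : 0 ≤ 2 * (1 + B) * sq v := by
        unfold sq
        positivity
      exact div_le_div₀ h4 h3 (by positivity) (pow_le_pow_left₀ ha0.le haz 2)
    have h5 : v.2 ^ 2 ≤ sq v := by
      unfold sq
      nlinarith [sq_nonneg v.1]
    have h6 : sq (ξ, v.2) = ξ ^ 2 + v.2 ^ 2 := rfl
    rw [h6, hK]
    nlinarith
  have hsv : 0 ≤ sq v := by
    unfold sq
    positivity
  have hsm : sq (ξ, v.2) ≤ δ' ^ 2 := by
    refine hsq.trans ?_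
    have h2 : K * sq v ≤ K * (δ' / K) ^ 2 := mul_le_mul_of_nonneg_left hv hKpos.le
    have h3 : K * (δ' / K) ^ 2 = δ' ^ 2 / K := by
      field_simp
    rw [h3] at h2
    exact h2.trans (div_le_self (sq_nonneg _) hK1')
  have hθ2 : θ (ξ, v.2) ≤ κ * sq v := by
    refine (hθ _ hsm).trans ?_
    have h2 : κ / K * sq (ξ, v.2) ≤ κ / K * (K * sq v) :=
      mul_le_mul_of_nonneg_left hsq (by positivity)
    have h3 : κ / K * (K * sq v) = κ * sq v := by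
      field_simp
    linarith
  have h2 := pl_le (FF f (PU W0) K1 K' J θ η M' C) hl (Phi J z + v) (z.1 + ξ)
  have h3 := (ff_le f hf K1 hK1 J hE (PU W0) hft hle K' hK' θ η M' C M h
    (z.1 + ξ, (Phi J z + v).2)).1 z hz
  have e7 : ((z.1 + ξ, (Phi J z + v).2) : ℝ × ℝ) - z = (ξ, v.2) := by
    ext <;> simp [Phi]
  unfold mem1 at h3
  rw [e7] at h3
  have e8 : (Phi J z + v).1 = J.p z + v.1 := rfl
  rw [e8] at h2
  refine h2.trans ?_
  have e9 : J.q z (ξ, v.2) = J.p z * ξ + J.s z * v.2 + v.1 ^ 2 / (2 * J.a z) := by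
    unfold Jets.q
    have hc : J.c z = J.b z ^ 2 / J.a z := by
      field_simp
      linarith
    simp only
    rw [hc, hξ]
    field_simp
    ring
  have e10 : JW.q (Phi J z) v = -z.1 * v.1 + J.s z * v.2 + (-(v.1 ^ 2) / (2 * J.a z) +
      J.b z * v.1 * v.2 / J.a z) := by
    unfold Jets.q
    rw [e2, e3, e4, e5, e6]
    field_simp
    ring
  have e11 : v.1 * ξ = v.1 ^ 2 / J.a z - J.b z * v.1 * v.2 / J.a z := by
    rw [hξ]
    field_simp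
  rw [e1, e10]
  rw [e9] at h3
  have e12 : v.1 ^ 2 / (2 * J.a z) + -(v.1 ^ 2 / J.a z) = -(v.1 ^ 2) / (2 * J.a z) := by
    field_simp
    ring
  nlinarith [h3, hθ2, e11, e12]

private theorem conv_line (f : ℝ × ℝ → ℝ) (hf : ConvexOn ℝ univ f) (t p a b c m : ℝ)
    (hab : a ≤ b) (hbc : b ≤ c) (h1 : f (a, t) - p * a ≤ m) (h2 : f (c, t) - p * c ≤ m) :
    f (b, t) - p * b ≤ m := by
  have hcv : ConvexOn ℝ univ fun x : ℝ => f (x, t) - p * x := by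
    refine ⟨convex_univ, ?_⟩
    intro x _ x' _ α β hα hβ hαβ
    have h2 := hf.2 (mem_univ (x, t)) (mem_univ (x', t)) hα hβ hαβ
    have e : α • (x, t) + β • (x', t) = (α • x + β • x', t) := by
      ext
      · simp
      · simp only [Prod.smul_mk, Prod.mk_add_mk, smul_eq_mul]
        rw [← add_mul, hαβ, one_mul]
    rw [e] at h2
    simp only [smul_eq_mul] at h2 ⊢
    nlinarith
  have h3 := hcv.le_max_of_mem_Icc (mem_univ a) (mem_univ c) (⟨hab, hbc⟩ : b ∈ Icc a c)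
  exact h3.trans (max_le h1 h2)

private theorem sq_tri (x t δ1 : ℝ) (z1 z' : ℝ × ℝ) (h2 : sq ((x, t) - z') ≤ δ1 ^ 2)
    (h3 : |x - z1.1| ≤ δ1) (h4 : |t - z1.2| ≤ δ1) : sq (z' - z1) ≤ 9 * δ1 ^ 2 := by
  have h7 : (x - z1.1) ^ 2 ≤ δ1 ^ 2 := sq_le_sq' (abs_le.1 h3).1 (abs_le.1 h3).2
  have h8 : (t - z1.2) ^ 2 ≤ δ1 ^ 2 := sq_le_sq' (abs_le.1 h4).1 (abs_le.1 h4).2
  unfold sq at h2 ⊢
  simp only [Prod.fst_sub, Prod.snd_sub] at h2 ⊢
  have h9 : (z'.1 - z1.1) ^ 2 ≤ 2 * (x - z'.1) ^ 2 + 2 * (x - z1.1) ^ 2 := by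
    nlinarith [sq_nonneg ((x - z'.1) + (x - z1.1))]
  have h10 : (z'.2 - z1.2) ^ 2 ≤ 2 * (t - z'.2) ^ 2 + 2 * (t - z1.2) ^ 2 := by
    nlinarith [sq_nonneg ((t - z'.2) + (t - z1.2))]
  nlinarith [sq_nonneg δ1]

/-- Near `S` the minimizers are close and the active members are of the first kind. -/
private theorem d1_claim (f : ℝ × ℝ → ℝ) (hf : ConvexOn ℝ univ f) (hg : Gr f)
    (K1 : Set (ℝ × ℝ)) (hK1 : IsCompact K1) (J : Jets) (hE : Exp2 f K1 J)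
    (h1 : ∀ z ∈ K1, 0 < J.a z ∧ J.a z * J.c z = J.b z ^ 2)
    (JW : Jets) (hJW : ∀ z ∈ K1, PL f (Phi J z) = f z - J.p z * z.1 ∧ JW.p (Phi J z) = -z.1 ∧
        JW.s (Phi J z) = J.s z ∧ JW.a (Phi J z) = -1 / J.a z ∧
        JW.b (Phi J z) = J.b z / J.a z ∧ JW.c (Phi J z) = 0)
    (W0 : ℝ × ℝ → ℝ) (h0 : W0P (PL f) W0 (Phi J '' K1) JW)
    (K' : Set (ℝ × ℝ)) (hK' : IsCompact K') (θ : ℝ × ℝ → ℝ) (η M' C M : ℝ)
    (h : MemF f (PU W0) K1 K' J θ η M' C M)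
    (heq : ∀ y ∈ Phi J '' K1, PL (FF f (PU W0) K1 K' J θ η M' C) y = PL f y) :
    ∀ δ1 : ℝ, 0 < δ1 → ∃ δ2 : ℝ, 0 < δ2 ∧ ∀ z1 ∈ K1, ∀ y ∈ cb (Phi J z1) δ2,
      ∃ x : ℝ, ∃ z' ∈ K1, sq ((x, y.2) - z') ≤ δ1 ^ 2 ∧ sq (z' - z1) ≤ 9 * δ1 ^ 2 ∧
        PL (FF f (PU W0) K1 K' J θ η M' C) y = mem1 f J θ z' (x, y.2) - y.1 * x := by
  obtain ⟨hft, hle, hl⟩ := base f hf hg K1 hK1 J hE JW W0 h0 K' hK' θ η M' C M h
  obtain ⟨a0, B, ha0, hB, hab⟩ := bounds f K1 hK1 J hE h1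
  have hFc := ff_continuous f hf K1 hK1 J hE (PU W0) hft hle K' hK' θ η M' C M h
  have hFle := ff_le f hf K1 hK1 J hE (PU W0) hft hle K' hK' θ η M' C M h
  have hFD := ff_D2 f hf K1 hK1 J hE (PU W0) hft hle K' hK' θ η M' C M h
  have hFat := ff_attained f hf K1 hK1 J hE (PU W0) hft hle K' hK' θ η M' C M h
  set F := FF f (PU W0) K1 K' J θ η M' C with hF
  have hC0 := h.C0
  have hfc : Continuous f := continuous_of_convex f hf
  have hPc : Continuous (PL F) := by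
    refine sc_continuous F hFc hl M (C + 1) h.M0 (by linarith) hFD (fun z => ?_)
    have h2 := (hFle z).2.2.1
    unfold mem3 at h2
    have h3 : 0 ≤ sq z := by
      unfold sq
      positivity
    nlinarith
  have hPfc : Continuous (PL f) := pl_continuous f hf hg
  have hSc : IsCompact (Phi J '' K1) := by
    refine hK1.image_of_continuousOn ?_
    exact hE.cp.prodMk continuous_snd.continuousOn
  have hSc2 : IsCompact ((fun z => (z, Phi J z)) '' K1) := by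
    refine hK1.image_of_continuousOn ?_
    exact continuousOn_id.prodMk (hE.cp.prodMk continuous_snd.continuousOn)
  have hlf : Low f := low_of_gr f hg
  intro δ1 hδ1
  -- expansions
  obtain ⟨δe, hδe, hex⟩ := hE.ex (a0 / 4) (by positivity)
  set r : ℝ := min δ1 δe with hr
  have hrpos : 0 < r := lt_min hδ1 hδe
  have hr1 : r ≤ δ1 := min_le_left _ _
  have hr2 : r ≤ δe := min_le_right _ _
  obtain ⟨m, hm, hθm⟩ := h.θpos δ1 hδ1
  set g : ℝ := a0 / 4 * r ^ 2 with hgdef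
  have hgpos : 0 < g := by positivity
  -- uniform continuity
  have hη := h.η0
  obtain ⟨d1, hd1, u1⟩ := uc_near (fun y => PL F y - W0 y) (hPc.sub h0.cont) _ hSc
    (η / 2) (by positivity)
  obtain ⟨d2, hd2, u2⟩ := uc_near (fun y => PL F y - PL f y) (hPc.sub hPfc) _ hSc
    (min (1 / 2) (m * δ1 ^ 2 / 2)) (by positivity)
  obtain ⟨d3, hd3, u3⟩ := uc_near (PL F) hPc _ hSc (g / 4) (by positivity)
  obtain ⟨d4, hd4, u4⟩ := uc_near
    (fun q : (ℝ × ℝ) × (ℝ × ℝ) => f (q.1.1 + r, q.2.2) - q.2.1 * (q.1.1 + r))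
    (by fun_prop) _ hSc2 (g / 4) (by positivity)
  obtain ⟨d5, hd5, u5⟩ := uc_near
    (fun q : (ℝ × ℝ) × (ℝ × ℝ) => f (q.1.1 - r, q.2.2) - q.2.1 * (q.1.1 - r))
    (by fun_prop) _ hSc2 (g / 4) (by positivity)
  obtain ⟨d6, hd6, u6⟩ := uc_near
    (fun q : (ℝ × ℝ) × (ℝ × ℝ) => f (q.1.1, q.2.2) - q.2.1 * q.1.1)
    (by fun_prop) _ hSc2 (g / 4) (by positivity)
  set D : ℝ := min (min (min d1 d2) (min d3 d4)) (min (min d5 d6) δ1) with hD
  have hDpos : 0 < D := by positivity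
  have hD1 : D ≤ d1 := (min_le_left _ _).trans ((min_le_left _ _).trans (min_le_left _ _))
  have hD2 : D ≤ d2 := (min_le_left _ _).trans ((min_le_left _ _).trans (min_le_right _ _))
  have hD3 : D ≤ d3 := (min_le_left _ _).trans ((min_le_right _ _).trans (min_le_left _ _))
  have hD4 : D ≤ d4 := (min_le_left _ _).trans ((min_le_right _ _).trans (min_le_right _ _))
  have hD5 : D ≤ d5 := (min_le_right _ _).trans ((min_le_left _ _).trans (min_le_left _ _))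
  have hD6 : D ≤ d6 := (min_le_right _ _).trans ((min_le_left _ _).trans (min_le_right _ _))
  have hD7 : D ≤ δ1 := (min_le_right _ _).trans (min_le_right _ _)
  refine ⟨D / 2, by positivity, fun z1 hz1 y hy => ?_⟩
  obtain ⟨hy1, hy2⟩ := sq_abs_le _ _ (by positivity) hy
  simp only [Prod.fst_sub, Prod.snd_sub] at hy1 hy2
  have hyd : dist (Phi J z1) y < D := by
    rw [dist_comm, Prod.dist_eq, Real.dist_eq, Real.dist_eq]
    exact max_lt (by linarith) (by linarith)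
  have hyd2 : dist ((z1, Phi J z1) : (ℝ × ℝ) × (ℝ × ℝ)) (z1, y) < D := by
    rw [Prod.dist_eq]
    simp only [dist_self]
    exact max_lt hDpos hyd
  have hmem : Phi J z1 ∈ Phi J '' K1 := mem_image_of_mem _ hz1
  have hmem2 : ((z1, Phi J z1) : (ℝ × ℝ) × (ℝ × ℝ)) ∈ (fun z => (z, Phi J z)) '' K1 :=
    mem_image_of_mem _ hz1
  have v1 := u1 _ hmem y (hyd.trans_le hD1)
  have v2 := u2 _ hmem y (hyd.trans_le hD2)
  have v3 := u3 _ hmem y (hyd.trans_le hD3)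
  have v4 := u4 _ hmem2 (z1, y) (hyd2.trans_le hD4)
  have v5 := u5 _ hmem2 (z1, y) (hyd2.trans_le hD5)
  have v6 := u6 _ hmem2 (z1, y) (hyd2.trans_le hD6)
  simp only at v1 v2 v4 v5 v6
  rw [heq _ hmem, h0.eq _ hmem, sub_self, sub_zero] at v1
  rw [heq _ hmem, sub_self, sub_zero] at v2
  rw [heq _ hmem] at v3
  have v2a := v2.trans_le (min_le_left _ _)
  have v2b := v2.trans_le (min_le_right _ _)
  obtain ⟨x, hx⟩ := pl_attained F hFc hl y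
  -- the expansion at `z1`
  have hPLf := (hJW z1 hz1).1
  have haz := (hab z1 hz1).1
  have hexp : ∀ σ : ℝ, σ ^ 2 = r ^ 2 →
      PL f (Phi J z1) + g ≤ f (z1.1 + σ, z1.2) - J.p z1 * (z1.1 + σ) := by
    intro σ hσ
    have h2 := hex z1 hz1 (σ, 0) (by
      unfold sq
      simp only
      nlinarith)
    have h3 : J.q z1 (σ, 0) = J.p z1 * σ + J.a z1 * r ^ 2 / 2 := by
      unfold Jets.q
      simp only
      rw [← hσ]
      ring
    have h4 : sq (σ, 0) = r ^ 2 := by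
      unfold sq
      simp only
      rw [hσ]
      ring
    have h5 : z1 + (σ, 0) = (z1.1 + σ, z1.2) := by
      ext <;> simp
    rw [h3, h4, h5] at h2
    have h6 := (abs_le.1 h2).1
    have h7 : a0 * r ^ 2 ≤ J.a z1 * r ^ 2 := mul_le_mul_of_nonneg_right haz (sq_nonneg _)
    rw [hPLf, hgdef]
    linarith
  have hxr : f (x, y.2) - y.1 * x ≤ PL F y → |x - z1.1| ≤ r := by
    intro hxf
    have w3 := (abs_lt.1 v3).2
    have w4 := (abs_lt.1 v4).1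
    have w5 := (abs_lt.1 v5).1
    have w6 := (abs_lt.1 v6).2
    have e1 : (Phi J z1).1 = J.p z1 := rfl
    have e2 : (Phi J z1).2 = z1.2 := rfl
    rw [e1, e2] at w4 w5 w6
    have q1 := hexp r rfl
    have q2 := hexp (-r) (by ring)
    rw [← sub_eq_add_neg] at q2
    have q3 : f z1 = f (z1.1, z1.2) := rfl
    rw [q3] at hPLf
    by_contra hcon
    push Not at hcon
    rcases lt_abs.1 hcon with hcon | hcon
    · have q4 := conv_line f hf y.2 y.1 z1.1 (z1.1 + r) x (PL f (Phi J z1) + g / 4)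
        (by linarith) (by linarith) (by linarith) (by linarith)
      linarith
    · have q4 := conv_line f hf y.2 y.1 x (z1.1 - r) z1.1 (PL f (Phi J z1) + g / 4)
        (by linarith) (by linarith) (by linarith) (by linarith)
      linarith
  have hkey : ∀ z' ∈ K1, F (x, y.2) = mem1 f J θ z' (x, y.2) → sq ((x, y.2) - z') ≤ δ1 ^ 2 := by
    intro z' hz' hz'e
    by_contra hcon
    push Not at hcon
    have h2 := hθm _ hcon.le
    have h3 := h.m1 z' hz' (x, y.2)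
    have h4 := pl_le f hlf y x
    have h5 : m * δ1 ^ 2 < m * sq ((x, y.2) - z') := mul_lt_mul_of_pos_left hcon hm
    have h6 := (abs_lt.1 v2b).2
    rw [hx, hz'e] at h6
    linarith
  rcases hFat (x, y.2) with ⟨z', hz', e⟩ | ⟨z', hz', e⟩ | e
  · refine ⟨x, z', hz', hkey z' hz' e, ?_, ?_⟩
    · refine sq_tri x y.2 δ1 z1 z' (hkey z' hz' e) ((hxr ?_).trans hr1) ?_
      · have h2 := h.m1 z' hz' (x, y.2)
        have h3 := h.θnn ((x, y.2) - z')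
        rw [hx, e]
        linarith
      · have e1 : (Phi J z1).2 = z1.2 := rfl
        rw [e1] at hy2
        linarith
    · rw [hx, e]
  · exfalso
    have h2 := h.m2 z' hz' (x, y.2)
    have h3 := le_pu W0 h0.gr y.1 (x, y.2)
    simp only at h3
    have h4 := (abs_lt.1 v1).2
    rw [hx, e] at h4
    linarith
  · exfalso
    have h2 := h.m3 (x, y.2)
    have h3 := pl_le f hlf y x
    have h4 := (abs_lt.1 v2a).2
    rw [hx, e] at h4
    linarith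

private theorem a_unif (f : ℝ × ℝ → ℝ) (K1 : Set (ℝ × ℝ)) (hK1 : IsCompact K1) (J : Jets)
    (hE : Exp2 f K1 J) (κ : ℝ) (hκ : 0 < κ) : ∃ δ : ℝ, 0 < δ ∧ ∀ z ∈ K1, ∀ z' ∈ K1,
      sq (z' - z) ≤ δ ^ 2 → J.a z' ≤ J.a z + κ := by
  have h := hK1.uniformContinuousOn_of_continuous hE.ca
  obtain ⟨δ, hδ, h⟩ := Metric.uniformContinuousOn_iff.1 h κ hκ
  refine ⟨δ / 2, by positivity, fun z hz z' hz' h2 => ?_⟩
  obtain ⟨h3, h4⟩ := sq_abs_le _ _ (by positivity) h2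
  simp only [Prod.fst_sub, Prod.snd_sub] at h3 h4
  have h5 := h z' hz' z hz (by
    rw [Prod.dist_eq, Real.dist_eq, Real.dist_eq]
    exact max_lt (by linarith) (by linarith))
  rw [Real.dist_eq] at h5
  have := (abs_lt.1 h5).2
  linarith

theorem d1_near (f : ℝ × ℝ → ℝ) (hf : ConvexOn ℝ univ f) (hg : Gr f)
    (K1 : Set (ℝ × ℝ)) (hK1 : IsCompact K1) (J : Jets) (hE : Exp2 f K1 J)
    (h1 : ∀ z ∈ K1, 0 < J.a z ∧ J.a z * J.c z = J.b z ^ 2)
    (JW : Jets) (hJW : ∀ z ∈ K1, PL f (Phi J z) = f z - J.p z * z.1 ∧ JW.p (Phi J z) = -z.1 ∧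
        JW.s (Phi J z) = J.s z ∧ JW.a (Phi J z) = -1 / J.a z ∧
        JW.b (Phi J z) = J.b z / J.a z ∧ JW.c (Phi J z) = 0)
    (W0 : ℝ × ℝ → ℝ) (h0 : W0P (PL f) W0 (Phi J '' K1) JW)
    (K' : Set (ℝ × ℝ)) (hK' : IsCompact K') (θ : ℝ × ℝ → ℝ) (η M' C M : ℝ)
    (h : MemF f (PU W0) K1 K' J θ η M' C M)
    (heq : ∀ y ∈ Phi J '' K1, PL (FF f (PU W0) K1 K' J θ η M' C) y = PL f y) :
    ∀ κ : ℝ, 0 < κ → ∃ δ : ℝ, 0 < δ ∧ ∀ y ∈ Phi J '' K1, ∀ z ∈ cb y δ, ∀ k : ℝ, |k| ≤ δ →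
      D2 (PL (FF f (PU W0) K1 K' J θ η M' C)) (k, 0) z ≤ (JW.a y + κ) * k ^ 2 := by
  intro κ hκ
  obtain ⟨hft, hle, hl⟩ := base f hf hg K1 hK1 J hE JW W0 h0 K' hK' θ η M' C M h
  obtain ⟨a0, B, ha0, hB, hab⟩ := bounds f K1 hK1 J hE h1
  have hFle := ff_le f hf K1 hK1 J hE (PU W0) hft hle K' hK' θ η M' C M h
  set κ' : ℝ := κ * a0 ^ 2 with hκ'
  have hκ'pos : 0 < κ' := by positivity
  obtain ⟨dθ, hdθ, hθ⟩ := h.θD (κ' / 2) (by positivity)
  obtain ⟨da, hda, hua⟩ := a_unif f K1 hK1 J hE (κ' / 2) (by positivity)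
  set δ1 : ℝ := min dθ (da / 3) with hδ1
  have hδ1pos : 0 < δ1 := by positivity
  obtain ⟨δ2, hδ2, hcl⟩ := d1_claim f hf hg K1 hK1 J hE h1 JW hJW W0 h0 K' hK' θ η M' C M h heq
    δ1 hδ1pos
  refine ⟨min δ2 (a0 * dθ), by positivity, ?_⟩
  rintro _ ⟨z1, hz1, rfl⟩ y hy k hk
  have hy' : y ∈ cb (Phi J z1) δ2 := by
    have h2 : sq (y - Phi J z1) ≤ (min δ2 (a0 * dθ)) ^ 2 := hy
    have h3 : (min δ2 (a0 * dθ)) ^ 2 ≤ δ2 ^ 2 :=
      pow_le_pow_left₀ (by positivity) (min_le_left _ _) 2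
    exact h2.trans h3
  obtain ⟨x, z', hz', g1, g2, g3⟩ := hcl z1 hz1 y hy'
  have haz := (hab z1 hz1).1
  have hapos : 0 < J.a z1 := by linarith
  have ha' : J.a z' ≤ J.a z1 + κ' / 2 := by
    refine hua z1 hz1 z' hz' (g2.trans ?_)
    have h3 : δ1 ^ 2 ≤ (da / 3) ^ 2 := pow_le_pow_left₀ hδ1pos.le (min_le_right _ _) 2
    nlinarith
  have g1' : sq ((x, y.2) - z') ≤ dθ ^ 2 :=
    g1.trans (pow_le_pow_left₀ hδ1pos.le (min_le_left _ _) 2)
  have hloc := sc_local (FF f (PU W0) K1 K' J θ η M' C) hl (mem1 f J θ z')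
    (fun z => (hFle z).1 z' hz') y x g3 (J.a z1 + κ') dθ (by positivity) hdθ (by
      intro ξ hξ
      have h2 : D2 (mem1 f J θ z') (ξ, 0) (x, y.2) =
          J.a z' * ξ ^ 2 + D2 θ (ξ, 0) ((x, y.2) - z') := by
        unfold D2 mem1 Jets.q
        have e1 : ((x, y.2) : ℝ × ℝ) + (ξ, 0) - z' = (x, y.2) - z' + (ξ, 0) := by abel
        have e2 : ((x, y.2) : ℝ × ℝ) - (ξ, 0) - z' = (x, y.2) - z' - (ξ, 0) := by abel
        rw [e1, e2]
        simp only [Prod.fst_add, Prod.snd_add, Prod.fst_sub, Prod.snd_sub]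
        ring
      have h3 : sq ((ξ, 0) : ℝ × ℝ) = ξ ^ 2 := by
        unfold sq
        simp
      have h4 := hθ (ξ, 0) ((x, y.2) - z') (by
        rw [h3]
        exact sq_le_sq' (by linarith [(abs_le.1 hξ).1]) (abs_le.1 hξ).2) g1'
      rw [h3] at h4
      rw [h2]
      nlinarith [mul_le_mul_of_nonneg_right ha' (sq_nonneg ξ)]) k (by
      refine hk.trans ((min_le_right _ _).trans ?_)
      nlinarith)
  refine hloc.trans ?_
  rw [(hJW z1 hz1).2.2.2.1]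
  have h5 : -k ^ 2 / (J.a z1 + κ') = (-1 / (J.a z1 + κ')) * k ^ 2 := by
    ring
  rw [h5]
  refine mul_le_mul_of_nonneg_right ?_ (sq_nonneg _)
  have h6 : -1 / J.a z1 + κ - -1 / (J.a z1 + κ') = κ - κ' / (J.a z1 * (J.a z1 + κ')) := by
    field_simp
    ring
  have h7 : κ' / (J.a z1 * (J.a z1 + κ')) ≤ κ := by
    rw [div_le_iff₀ (by positivity), hκ']
    have h8 : a0 ^ 2 ≤ J.a z1 * (J.a z1 + κ * a0 ^ 2) := by
      nlinarith [mul_le_mul haz haz ha0.le hapos.le, mul_pos hapos hκ'pos]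
    exact mul_le_mul_of_nonneg_left h8 hκ.le
  linarith

end Pool.Agent.MP_4eca41
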