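import Pool.Agent.Work.MP_4eca41_an.D.D2Defs
import Pool.Agent.Work.MP_4eca41_an.T.T1
import Pool.Agent.Work.MP_4eca41_an.T.T2

/-!
# D2C: the extremal function

PROOF.  `W z = sSup {q z | q continuous, Cls β q, q ≤ Φ}`; `W0` belongs to the family: `cls_of_pointwise` (T1) with `PLB W0 z (β z)` at every `z` (`Reg.on`, `Reg.eq`, `Reg.off`: in the second alternative `β z + κ ≥ β z`) and convexity in `t`.
Bounded above by `Φ z`, so `W0 ≤ W ≤ Φ`.  `Cls β W`: suprema of convex functions (`q (p,·)`, resp. `q (·,t) - BB β (·,t)`: `sup (q - BB) = W - BB`).  `W` continuous: `t2_continuous`: `W (·,t) + (C/2) p^2` is convex where `-C ≤ β`: it is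
`(W - BB β) + (BB β + (C/2) p^2)` and the second summand is convex in `p` (second derivative `β + C ≥ 0`; via `cls_lower` for `q = BB β` itself or `bb_d2`), locally bounded because `W0 ≤ W ≤ Φ` are continuous.  `max` by definition.
-/

set_option autoImplicit false

open Set MeasureTheory

namespace Pool.Agent.MP_4eca41

private theorem d2c_sup {ι : Type*} [Nonempty ι] (q : ι → ℝ × ℝ → ℝ)
    (hb : ∀ z, BddAbove (range fun i => q i z)) (l : ℝ → ℝ × ℝ) (g : ℝ → ℝ)
    (hc : ∀ i, ConvexOn ℝ univ fun x => q i (l x) + g x) :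
    ConvexOn ℝ univ fun x => (⨆ i, q i (l x)) + g x := by
  refine ⟨convex_univ, ?_⟩
  intro x _ y _ a b ha hb' hab
  have key : ∀ i, q i (l (a • x + b • y)) ≤
      a • ((⨆ i, q i (l x)) + g x) + b • ((⨆ i, q i (l y)) + g y) - g (a • x + b • y) := by
    intro i
    have h1 := (hc i).2 (mem_univ x) (mem_univ y) ha hb' hab
    have h2 : q i (l x) ≤ ⨆ i, q i (l x) := le_ciSup (hb (l x)) i
    have h3 : q i (l y) ≤ ⨆ i, q i (l y) := le_ciSup (hb (l y)) i
    have h4 : a • (q i (l x) + g x) ≤ a • ((⨆ i, q i (l x)) + g x) := by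
      simp only [smul_eq_mul]
      exact mul_le_mul_of_nonneg_left (by linarith) ha
    have h5 : b • (q i (l y) + g y) ≤ b • ((⨆ i, q i (l y)) + g y) := by
      simp only [smul_eq_mul]
      exact mul_le_mul_of_nonneg_left (by linarith) hb'
    have h6 : q i (l (a • x + b • y)) + g (a • x + b • y) ≤
        a • (q i (l x) + g x) + b • (q i (l y) + g y) := h1
    linarith
  have h7 := ciSup_le key
  show (⨆ i, q i (l (a • x + b • y))) + g (a • x + b • y) ≤
    a • ((⨆ i, q i (l x)) + g x) + b • ((⨆ i, q i (l y)) + g y)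
  linarith

private theorem d2c_D2x (q : ℝ × ℝ → ℝ) (p t h : ℝ) :
    D2 q (h, 0) (p, t) = d2 (fun x => q (x, t)) h p := by
  unfold D2 d2
  have e1 : ((p, t) : ℝ × ℝ) + (h, 0) = (p + h, t) := by ext <;> simp
  have e2 : ((p, t) : ℝ × ℝ) - (h, 0) = (p - h, t) := by ext <;> simp
  rw [e1, e2]

private theorem d2c_conv_nonneg (q : ℝ × ℝ → ℝ) (hc : ∀ p, ConvexOn ℝ univ fun t => q (p, t))
    (y : ℝ × ℝ) (h : ℝ) : 0 ≤ D2 q (0, h) y := by
  obtain ⟨p, t⟩ := y
  have h1 := (hc p).2 (mem_univ (t + h)) (mem_univ (t - h)) (show (0 : ℝ) ≤ 1 / 2 by norm_num)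
    (show (0 : ℝ) ≤ 1 / 2 by norm_num) (by norm_num)
  simp only [smul_eq_mul] at h1
  have h2 : 1 / 2 * (t + h) + 1 / 2 * (t - h) = t := by ring
  rw [h2] at h1
  unfold D2
  have e1 : ((p, t) : ℝ × ℝ) + (0, h) = (p, t + h) := by ext <;> simp
  have e2 : ((p, t) : ℝ × ℝ) - (0, h) = (p, t - h) := by ext <;> simp
  rw [e1, e2]
  linarith

private theorem d2c_W0 (W0 Φ β : ℝ × ℝ → ℝ) (S : Set (ℝ × ℝ)) (J : Jets) (δ : ℝ) (c s : ℕ → ℝ)
    (hR : Reg W0 Φ β S J δ c s) (hW0 : Continuous W0)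
    (hconv : ∀ p, ConvexOn ℝ univ fun t => W0 (p, t)) : Cls β W0 := by
  refine cls_of_pointwise β W0 hR.cont hW0 ?_ ?_
  · intro y κ hκ
    by_cases hy : y ∈ S
    · obtain ⟨h0, hh0, h1⟩ := hR.on y hy κ hκ
      refine ⟨h0, hh0, fun h ha hb => ?_⟩
      rw [hR.eq y hy]
      exact h1 h ha hb
    · rcases hR.off y hy with ⟨_, h2⟩ | ⟨k, κ', hκ', _, h2, _⟩
      · obtain ⟨h0, hh0, h1⟩ := h2 κ hκ
        exact ⟨h0, hh0, h1⟩
      · obtain ⟨h0, hh0, h1⟩ := h2 κ hκ
        refine ⟨h0, hh0, fun h ha hb => le_trans ?_ (h1 h ha hb)⟩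
        have := sq_nonneg h
        nlinarith
  · intro y κ hκ
    refine ⟨1, one_pos, fun h _ _ => ?_⟩
    have := d2c_conv_nonneg W0 hconv y h
    have h2 : 0 ≤ κ * h ^ 2 := by positivity
    linarith

theorem exists_W (W0 Φ β : ℝ × ℝ → ℝ) (S : Set (ℝ × ℝ)) (J : Jets) (δ : ℝ) (c s : ℕ → ℝ)
    (hR : Reg W0 Φ β S J δ c s) (hW0 : Continuous W0)
    (hconv : ∀ p, ConvexOn ℝ univ fun t => W0 (p, t)) (hΦ : Continuous Φ) (hle : ∀ z, W0 z ≤ Φ z) :
    ∃ W : ℝ × ℝ → ℝ, Continuous W ∧ (∀ z, W0 z ≤ W z) ∧ (∀ z, W z ≤ Φ z) ∧ Cls β W ∧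
      ∀ q : ℝ × ℝ → ℝ, Continuous q → Cls β q → (∀ y, q y ≤ Φ y) → ∀ y, q y ≤ W y := by
  classical
  let F : Type := {q : ℝ × ℝ → ℝ // Continuous q ∧ Cls β q ∧ ∀ y, q y ≤ Φ y}
  let q0 : F := ⟨W0, hW0, d2c_W0 W0 Φ β S J δ c s hR hW0 hconv, hle⟩
  have : Nonempty F := ⟨q0⟩
  have hb : ∀ z, BddAbove (range fun i : F => i.1 z) := by
    intro z
    refine ⟨Φ z, ?_⟩
    rintro _ ⟨i, rfl⟩
    exact i.2.2.2 z
  obtain ⟨C, c0, hc0, hC⟩ := hR.bd
  have hCpos : 0 < C := by
    have := hC 0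
    linarith [this.1, this.2]
  set W : ℝ × ℝ → ℝ := fun z => ⨆ i : F, i.1 z with hW
  have hge : ∀ z, W0 z ≤ W z := fun z => le_ciSup (hb z) q0
  have hleΦ : ∀ z, W z ≤ Φ z := fun z => ciSup_le fun i => i.2.2.2 z
  have hmax : ∀ q : ℝ × ℝ → ℝ, Continuous q → Cls β q → (∀ y, q y ≤ Φ y) → ∀ y, q y ≤ W y :=
    fun q h1 h2 h3 y => le_ciSup (hb y) (⟨q, h1, h2, h3⟩ : F)
  have hct : ∀ p, ConvexOn ℝ univ fun t => W (p, t) := by
    intro p
    have := d2c_sup (fun i : F => i.1) hb (fun t => (p, t)) (fun _ => 0) (fun i => by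
      have := i.2.2.1.1 p
      simpa using this)
    simpa using this
  have hcp : ∀ t, ConvexOn ℝ univ fun p => W (p, t) - BB β (p, t) := by
    intro t
    have := d2c_sup (fun i : F => i.1) hb (fun p => (p, t)) (fun p => -BB β (p, t)) (fun i => by
      have := i.2.2.1.2 t
      simpa [sub_eq_add_neg] using this)
    simpa [sub_eq_add_neg] using this
  have hcont : Continuous W := by
    refine t2_continuous (C / 2) (by linarith) W ?_ ?_ ?_
    · intro t
      refine Or.inl (d2c_sup (fun i : F => i.1) hb (fun p => (p, t))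
        (fun p => C / 2 * p ^ 2) (fun i => ?_))
      refine sc_of_d2 (C / 2) (fun p => i.1 (p, t))
        (i.2.1.comp (continuous_id.prodMk continuous_const)) ?_
      intro x h
      have h1 := cls_lower β i.1 hR.cont i.2.2.1 (-C) (x, t) h (fun s _ => (hC _).1)
      rw [d2c_D2x] at h1
      linarith
    · intro p
      refine Or.inl ?_
      have h1 : ConvexOn ℝ univ fun t : ℝ => C / 2 * t ^ 2 := by
        have := (Even.convexOn_pow (𝕜 := ℝ) (n := 2) (by decide)).smul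
          (show (0 : ℝ) ≤ C / 2 by linarith)
        simpa [smul_eq_mul] using this
      exact (hct p).add h1
    · intro R
      have hK : IsCompact (Icc (-R) R ×ˢ Icc (-R) R : Set (ℝ × ℝ)) :=
        isCompact_Icc.prod isCompact_Icc
      obtain ⟨B1, hB1⟩ := hK.exists_bound_of_continuousOn hW0.continuousOn
      obtain ⟨B2, hB2⟩ := hK.exists_bound_of_continuousOn hΦ.continuousOn
      refine ⟨max B1 B2, fun y h1 h2 => ?_⟩
      have hy : y ∈ (Icc (-R) R ×ˢ Icc (-R) R : Set (ℝ × ℝ)) :=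
        ⟨abs_le.1 h1, abs_le.1 h2⟩
      have k1 := hB1 y hy
      have k2 := hB2 y hy
      rw [Real.norm_eq_abs] at k1 k2
      rw [abs_le]
      constructor
      · have := (abs_le.1 k1).1
        have := hge y
        have := le_max_left B1 B2
        linarith
      · have := (abs_le.1 k2).2
        have := hleΦ y
        have := le_max_right B1 B2
        linarith
  exact ⟨W, hcont, hge, hleΦ, ⟨hct, hcp⟩, hmax⟩

end Pool.Agent.MP_4eca41
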