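import Pool.Agent.Work.MP_4eca41_an.Defs

/-!
# D2B: the convex function `R` (one variable)

PROOF.  `F x = ∑' k, min (c k x) (c k s k)` for `x ≥ 0`: the terms are between `0` and `c k s k`, so `F` is well defined, `0 ≤ F ≤ δ`, concave, nondecreasing, continuous on `[0,∞)`, `F 0 = 0`.  `E x = x + ν F x`: continuous, strictly
increasing, concave, `E 0 = 0`, `E x ≥ x`, onto `[0,∞)`.  `R x = E⁻¹ x` for `x ≥ 0`, `R x = 0` for `x ≤ 0`.  (One may define `R x = sSup {u | 0 ≤ u ∧ E u ≤ x}` for `x ≥ 0`.)  `R x ≤ x` as `E x ≥ x`.  If `R x ≤ u`, `u ≥ 0`, `x ≥ 0`: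
`x = E (R x) ≤ E u ≤ u + ν δ`.  Convexity on `[0,∞)`: inverse of a concave increasing function; `R` is nonnegative, `0` on the left and nondecreasing: convex on the line (a convex function on `[0,∞)` with minimum at `0` extended by
its value at `0`).  Subgradients: `x0 ≤ 0`: `ρ = 0` (if `x0 = 0`: `ρ (1 + ν c k) = 0 ≤ 1`).  `x0 > 0`, `s1 = R x0 > 0`, `E s1 = x0`: let `e` be the right slope of the concave function `E` at `s1` (`e = inf_{t > s1} (E t - E s1)/(t - s1)`... for a concave function the right derivative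
is the supremum of slopes to the right; take `e = E'_+(s1) = sup_{t>s1} (E t - E s1)/(t - s1)`).  `e ≥ 1`, `E t ≤ E s1 + e (t - s1)` for ALL `t ≥ 0` (supporting line from above: for `t < s1` slopes on the left are `≥ e`).  Put `ρ = 1/e ∈ (0,1]`:
for `x ≥ 0`, `t = R x`: `x = E t ≤ x0 + e (R x - R x0)`, i.e. `R x ≥ R x0 + ρ (x - x0)`; for `x < 0`: `R x = 0 = R 0 ≥ R x0 + ρ (0 - x0) ≥ R x0 + ρ (x - x0)`.  If `x0 < s k`: `s1 ≤ x0 < s k`; for `s1 < t < s k`: `E t - E s1 ≥ (t - s1) + ν c k (t - s1)`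
(all other terms of `F` are nondecreasing), so `e ≥ 1 + ν c k` and `ρ (1 + ν c k) ≤ 1`.
-/

set_option autoImplicit false

open Set MeasureTheory

namespace Pool.Agent.MP_4eca41

/-- One term of the series. -/
private noncomputable def trm (c s : ℕ → ℝ) (k : ℕ) (x : ℝ) : ℝ := c k * min (max x 0) (s k)

private theorem trm_nn {c s : ℕ → ℝ} (hc : ∀ k, 0 ≤ c k) (hs : ∀ k, 0 < s k) (k : ℕ) (x : ℝ) :
    0 ≤ trm c s k x := mul_nonneg (hc k) (le_min (le_max_right _ _) (hs k).le)

private theorem trm_le {c s : ℕ → ℝ} (hc : ∀ k, 0 ≤ c k) (k : ℕ) (x : ℝ) :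
    trm c s k x ≤ c k * s k := mul_le_mul_of_nonneg_left (min_le_right _ _) (hc k)

private theorem trm_mono {c s : ℕ → ℝ} (hc : ∀ k, 0 ≤ c k) (k : ℕ) {x y : ℝ} (h : x ≤ y) :
    trm c s k x ≤ trm c s k y :=
  mul_le_mul_of_nonneg_left (min_le_min_right _ (max_le_max_right _ h)) (hc k)

private theorem trm_conc {c s : ℕ → ℝ} (hc : ∀ k, 0 ≤ c k) (k : ℕ) {u w α β : ℝ}
    (hu : 0 ≤ u) (hw : 0 ≤ w) (hα : 0 ≤ α) (hβ : 0 ≤ β) (hαβ : α + β = 1) :
    α * trm c s k u + β * trm c s k w ≤ trm c s k (α * u + β * w) := by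
  have h0 : 0 ≤ α * u + β * w := by positivity
  unfold trm
  rw [max_eq_left hu, max_eq_left hw, max_eq_left h0]
  have h1 : α * min u (s k) + β * min w (s k) ≤ min (α * u + β * w) (s k) := by
    refine le_min ?_ ?_
    · exact add_le_add (mul_le_mul_of_nonneg_left (min_le_left _ _) hα)
        (mul_le_mul_of_nonneg_left (min_le_left _ _) hβ)
    · calc α * min u (s k) + β * min w (s k) ≤ α * s k + β * s k :=
          add_le_add (mul_le_mul_of_nonneg_left (min_le_right _ _) hα)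
            (mul_le_mul_of_nonneg_left (min_le_right _ _) hβ)
        _ = s k := by rw [← add_mul, hαβ, one_mul]
  have h2 := mul_le_mul_of_nonneg_left h1 (hc k)
  linarith

private theorem trm_sum {c s : ℕ → ℝ} (hc : ∀ k, 0 ≤ c k) (hs : ∀ k, 0 < s k)
    (hsum : Summable fun k => c k * s k) (x : ℝ) : Summable fun k => trm c s k x :=
  Summable.of_nonneg_of_le (fun k => trm_nn hc hs k x) (fun k => trm_le hc k x) hsum

/-- The series. -/
private noncomputable def FS (c s : ℕ → ℝ) (x : ℝ) : ℝ := ∑' k, trm c s k x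

private theorem fs_cont {c s : ℕ → ℝ} (hc : ∀ k, 0 ≤ c k) (hs : ∀ k, 0 < s k)
    (hsum : Summable fun k => c k * s k) : Continuous (FS c s) := by
  unfold FS
  refine continuous_tsum (u := fun k => c k * s k) (fun k => ?_) hsum fun k x => ?_
  · unfold trm
    fun_prop
  · rw [Real.norm_eq_abs, abs_of_nonneg (trm_nn hc hs k x)]
    exact trm_le hc k x

private theorem fs_zero {c s : ℕ → ℝ} (hs : ∀ k, 0 < s k) : FS c s 0 = 0 := by
  unfold FS
  have h : ∀ k, trm c s k 0 = 0 := by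
    intro k
    unfold trm
    rw [max_self, min_eq_left (hs k).le, mul_zero]
  simp [h]

private theorem fs_diff {c s : ℕ → ℝ} (hc : ∀ k, 0 ≤ c k) (hs : ∀ k, 0 < s k)
    (hsum : Summable fun k => c k * s k) (k : ℕ) {x y : ℝ} (h : x ≤ y) :
    trm c s k y - trm c s k x ≤ FS c s y - FS c s x := by
  unfold FS
  rw [← (trm_sum hc hs hsum y).tsum_sub (trm_sum hc hs hsum x)]
  refine ((trm_sum hc hs hsum y).sub (trm_sum hc hs hsum x)).le_tsum k fun j _ => ?_
  exact sub_nonneg.2 (trm_mono hc j h)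

private theorem fs_mono {c s : ℕ → ℝ} (hc : ∀ k, 0 ≤ c k) (hs : ∀ k, 0 < s k)
    (hsum : Summable fun k => c k * s k) {x y : ℝ} (h : x ≤ y) : FS c s x ≤ FS c s y := by
  have h1 := fs_diff hc hs hsum 0 h
  have h2 := trm_mono (c := c) (s := s) hc 0 h
  linarith

private theorem fs_conc {c s : ℕ → ℝ} (hc : ∀ k, 0 ≤ c k) (hs : ∀ k, 0 < s k)
    (hsum : Summable fun k => c k * s k) {u w α β : ℝ}
    (hu : 0 ≤ u) (hw : 0 ≤ w) (hα : 0 ≤ α) (hβ : 0 ≤ β) (hαβ : α + β = 1) :
    α * FS c s u + β * FS c s w ≤ FS c s (α * u + β * w) := by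
  unfold FS
  rw [← tsum_mul_left, ← tsum_mul_left,
    ← ((trm_sum hc hs hsum u).mul_left α).tsum_add ((trm_sum hc hs hsum w).mul_left β)]
  exact (((trm_sum hc hs hsum u).mul_left α).add ((trm_sum hc hs hsum w).mul_left β)).tsum_le_tsum
    (fun k => trm_conc hc k hu hw hα hβ hαβ) (trm_sum hc hs hsum _)

private theorem fs_le {c s : ℕ → ℝ} (hc : ∀ k, 0 ≤ c k) (hs : ∀ k, 0 < s k)
    (hsum : Summable fun k => c k * s k) (x : ℝ) : FS c s x ≤ ∑' k, c k * s k :=
  (trm_sum hc hs hsum x).tsum_le_tsum (fun k => trm_le hc k x) hsum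

theorem exists_R (c s : ℕ → ℝ) (hc : ∀ k, 0 ≤ c k) (hs : ∀ k, 0 < s k)
    (hsum : Summable fun k => c k * s k) (δ : ℝ) (hδ : ∑' k, c k * s k ≤ δ) (ν : ℝ) (hν : 0 < ν) :
    ∃ R : ℝ → ℝ, ConvexOn ℝ univ R ∧ Monotone R ∧ (∀ x, x ≤ 0 → R x = 0) ∧ (∀ x, R x ≤ max x 0) ∧
      (∀ x u : ℝ, 0 ≤ u → R x ≤ u → x ≤ u + ν * δ) ∧
      ∀ x0 : ℝ, ∃ ρ : ℝ, 0 ≤ ρ ∧ ρ ≤ 1 ∧ (∀ x, R x0 + ρ * (x - x0) ≤ R x) ∧
        ∀ k, 0 ≤ x0 → x0 < s k → ρ * (1 + ν * c k) ≤ 1 := by
  obtain ⟨E, hE⟩ : ∃ E : ℝ → ℝ, E = fun x => x + ν * FS c s x := ⟨_, rfl⟩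
  have hEx : ∀ x, E x = x + ν * FS c s x := fun x => by rw [hE]
  have hE0 : E 0 = 0 := by rw [hEx, fs_zero hs]; ring
  have hEc : Continuous E := by
    rw [hE]
    exact continuous_id.add (continuous_const.mul (fs_cont hc hs hsum))
  have hFnn : ∀ x, 0 ≤ x → 0 ≤ FS c s x := fun x hx => by
    have := fs_mono hc hs hsum hx
    rwa [fs_zero hs] at this
  have hEge : ∀ x, 0 ≤ x → x ≤ E x := fun x hx => by
    rw [hEx]
    have := mul_nonneg hν.le (hFnn x hx)
    linarith
  have hEm : ∀ u w, u < w → E u < E w := fun u w h => by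
    rw [hEx, hEx]
    have := mul_le_mul_of_nonneg_left (fs_mono hc hs hsum h.le) hν.le
    linarith
  have hconc : ConcaveOn ℝ (Ici 0) E := by
    refine ⟨convex_Ici 0, fun u hu w hw α β hα hβ hαβ => ?_⟩
    simp only [smul_eq_mul]
    rw [hEx, hEx, hEx]
    have := mul_le_mul_of_nonneg_left (fs_conc hc hs hsum hu hw hα hβ hαβ) hν.le
    linarith
  have hex : ∀ x : ℝ, ∃ u : ℝ, 0 ≤ u ∧ u ≤ max x 0 ∧ E u = max x 0 := by
    intro x
    have h0 : (0 : ℝ) ≤ max x 0 := le_max_right _ _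
    have h1 := intermediate_value_Icc h0 hEc.continuousOn
    obtain ⟨u, hu, hu2⟩ := h1 (show max x 0 ∈ Icc (E 0) (E (max x 0)) from
      ⟨by rw [hE0]; exact h0, hEge _ h0⟩)
    exact ⟨u, hu.1, hu.2, hu2⟩
  choose R hR0 hRle hER using hex
  have hRm : Monotone R := by
    intro x y hxy
    by_contra hne
    have h1 := hEm _ _ (not_le.1 hne)
    rw [hER, hER] at h1
    exact absurd (max_le_max_right 0 hxy) (not_le.2 h1)
  have hsub : ∀ x0 : ℝ, ∃ ρ : ℝ, 0 ≤ ρ ∧ ρ ≤ 1 ∧ (∀ x, R x0 + ρ * (x - x0) ≤ R x) ∧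
      ∀ k, 0 ≤ x0 → x0 < s k → ρ * (1 + ν * c k) ≤ 1 := by
    intro x0
    rcases le_or_gt x0 0 with hx0 | hx0
    · refine ⟨0, le_rfl, zero_le_one, fun x => ?_, fun k _ _ => by rw [zero_mul]; exact zero_le_one⟩
      have h1 := hRle x0
      rw [max_eq_right hx0] at h1
      have h2 := hR0 x
      linarith
    · obtain ⟨s1, hs1⟩ : ∃ s1 : ℝ, s1 = R x0 := ⟨_, rfl⟩
      have hEs : E s1 = x0 := by rw [hs1, hER, max_eq_left hx0.le]
      have hs1le : s1 ≤ x0 := by
        have := hRle x0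
        rwa [max_eq_left hx0.le, ← hs1] at this
      have hs0 : 0 < s1 := by
        rcases eq_or_lt_of_le (hR0 x0) with h | h
        · exfalso
          rw [hs1, ← h, hE0] at hEs
          exact hx0.ne hEs
        · rw [hs1]; exact h
      obtain ⟨A, hA⟩ : ∃ A : Set ℝ, A = (fun t => (E t - E s1) / (t - s1)) '' Ioi s1 := ⟨_, rfl⟩
      have hub : ∀ t, 0 ≤ t → t < s1 → ∀ y ∈ A, y ≤ (E s1 - E t) / (s1 - t) := by
        intro t ht hts y hy
        rw [hA] at hy
        obtain ⟨w, hw, rfl⟩ := hy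
        exact hconc.slope_anti_adjacent ht ((hs0.trans hw).le) hts hw
      have hbdd : BddAbove A := ⟨_, hub 0 le_rfl hs0⟩
      have hAne : A.Nonempty := by
        rw [hA]
        exact ⟨_, s1 + 1, by simp, rfl⟩
      have hmem : ∀ t, s1 < t → (E t - E s1) / (t - s1) ∈ A := by
        intro t ht
        rw [hA]
        exact ⟨t, ht, rfl⟩
      obtain ⟨e, he⟩ : ∃ e : ℝ, e = sSup A := ⟨_, rfl⟩
      have heg : ∀ t, s1 < t → (E t - E s1) / (t - s1) ≤ e := fun t ht => by
        rw [he]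
        exact le_csSup hbdd (hmem t ht)
      have hel : ∀ t, 0 ≤ t → t < s1 → e ≤ (E s1 - E t) / (s1 - t) := fun t ht hts => by
        rw [he]
        exact csSup_le hAne (hub t ht hts)
      have he1 : 1 ≤ e := by
        refine le_trans ?_ (heg (s1 + 1) (by linarith))
        rw [le_div_iff₀ (by linarith), hEx, hEx]
        have := mul_le_mul_of_nonneg_left (fs_mono hc hs hsum (show s1 ≤ s1 + 1 by linarith)) hν.le
        linarith
      have hepos : 0 < e := by linarith
      have hline : ∀ t, 0 ≤ t → E t ≤ x0 + e * (t - s1) := by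
        intro t ht
        rw [← hEs]
        rcases lt_trichotomy t s1 with h | h | h
        · have h1 := hel t ht h
          rw [le_div_iff₀ (by linarith)] at h1
          linarith
        · rw [h]
          linarith
        · have h1 := heg t h
          rw [div_le_iff₀ (by linarith)] at h1
          linarith
      refine ⟨1 / e, by positivity, by rw [div_le_one hepos]; exact he1, fun x => ?_,
        fun k _ hk => ?_⟩
      · have h1 := hline (R x) (hR0 x)
        rw [hER] at h1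
        have h2 : x ≤ x0 + e * (R x - s1) := (le_max_left _ _).trans h1
        rw [← hs1]
        have h3 : 1 / e * (x - x0) ≤ R x - s1 := by
          rw [one_div_mul_eq_div, div_le_iff₀ hepos]
          linarith
        linarith
      · rw [one_div_mul_eq_div, div_le_one hepos]
        have hlt : s1 < s k := hs1le.trans_lt hk
        refine le_trans ?_ (heg (s k) hlt)
        rw [le_div_iff₀ (by linarith), hEx, hEx]
        have h1 := fs_diff hc hs hsum k hlt.le
        have h2 : trm c s k (s k) - trm c s k s1 = c k * (s k - s1) := by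
          unfold trm
          rw [max_eq_left (hs k).le, max_eq_left hs0.le, min_self, min_eq_left hlt.le]
          ring
        rw [h2] at h1
        have h3 := mul_le_mul_of_nonneg_left h1 hν.le
        linarith
  refine ⟨R, ?_, hRm, ?_, hRle, ?_, hsub⟩
  · refine ⟨convex_univ, fun x _ y _ α β hα hβ hαβ => ?_⟩
    simp only [smul_eq_mul]
    obtain ⟨ρ, -, -, h, -⟩ := hsub (α * x + β * y)
    have h1 := mul_le_mul_of_nonneg_left (h x) hα
    have h2 := mul_le_mul_of_nonneg_left (h y) hβ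
    have e1 : α * (R (α * x + β * y) + ρ * (x - (α * x + β * y))) +
        β * (R (α * x + β * y) + ρ * (y - (α * x + β * y))) = R (α * x + β * y) := by
      have : β = 1 - α := by linarith
      subst this
      ring
    linarith
  · intro x hx
    have h1 := hRle x
    rw [max_eq_right hx] at h1
    exact le_antisymm h1 (hR0 x)
  · intro x u hu hxu
    have h1 : E (R x) ≤ E u := by
      rcases eq_or_lt_of_le hxu with h | h
      · rw [h]
      · exact (hEm _ _ h).le
    rw [hER, hEx u] at h1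
    have h2 := le_max_left x 0
    have h3 := mul_le_mul_of_nonneg_left ((fs_le hc hs hsum u).trans hδ) hν.le
    linarith

end Pool.Agent.MP_4eca41
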