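import Pool.Agent.Work.MP_4eca41_an.D.D2Defs
import Pool.Agent.Work.MP_4eca41_an.D.D2B
import Pool.Agent.Work.MP_4eca41_an.T.T1

/-!
# D2D: the regularity lemma  (paper D2.2)

PROOF.  Fix `v`; if `v = 0` trivial.  `Qv = M v.2^2 - v.1^2/M`, `ν = sq v/2 > 0`, `R` from `exists_R`.  `H z = (W (z+v) + W (z-v))/2 - Qv/2`.  `H ≤ (Φ(z+v)+Φ(z-v))/2 - Qv/2 ≤ Φ z` (`hupp`).  `Qh z = W0 z + R (H z - W0 z)`.
Continuous (`R` is convex and finite, so continuous).  `Qh ≤ W0 + max (H - W0) 0 = max H W0 ≤ Φ`.  Claim: `Cls β Qh`, by `cls_of_pointwise`.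
In `t`: let `z`, `x0 = H z - W0 z`, `ρ` a subgradient (`0 ≤ ρ ≤ 1`): `Qh z' ≥ W0 z' + R x0 + ρ (H z' - W0 z' - x0) = (1-ρ) W0 z' + ρ H z' + const` with equality at `z' = z`; both `W0` and `H` are convex in `t`, so `D2 Qh (0,h) z ≥ 0`.
In `p`: same inequality: `D2 Qh (h,0) z ≥ (1-ρ) D2 W0 (h,0) z + ρ D2 H (h,0) z`, and `D2 H (h,0) z = (D2 W (h,0) (z+v) + D2 W (h,0) (z-v))/2 ≥ ((β (z+v) + β (z-v))/2 - ε) h^2` for small `h` (`cls_pointwise`).
 (i) `z ∈ S`: `H z ≤ Φ z = W0 z` (hypothesis `hS`), so `R (H z - W0 z) = 0` and `Qh ≥ W0` with equality at `z`: `D2 Qh (h,0) z ≥ D2 W0 (h,0) z ≥ (J.a z - ε) h^2`, `β z = J.a z`.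
 (ii) `z ∉ S`, `x0 < 0`: `Qh z = W0 z`, `Qh ≥ W0`: `PLB W0 z (β z)` (both alternatives of `Reg.off`).
 (iii) `z ∉ S`, `x0 ≥ 0`, first alternative: `β (z+v) + β (z-v) ≥ 2 β z`, so the bound is `(1-ρ) β z + ρ β z`.  Second alternative (`k`, `κ`): `x0 = H z - W0 z ≤ Φ z - W0 z < s k`, so `ρ (1 + ν c k) ≤ 1`; the bound is
 `(1-ρ)(β z + κ) + ρ (β z - c k κ sq v/2) = β z + κ ((1-ρ) - ρ ν c k) ≥ β z`.
By maximality `Qh ≤ W`, so `R (H z - W0 z) ≤ W z - W0 z`, and (`W z - W0 z ≥ 0`) `H z - W0 z ≤ W z - W0 z + ν δ`, i.e. `H z - W z ≤ δ sq v/2`, `D2 W v z = 2 (H z - W z) + Qv ≤ Qv + δ sq v`.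
-/

set_option autoImplicit false

open Set MeasureTheory

namespace Pool.Agent.MP_4eca41

private theorem reg_t {q : ℝ × ℝ → ℝ} (hq : ∀ p, ConvexOn ℝ univ fun t => q (p, t)) (h : ℝ)
    (y : ℝ × ℝ) : 0 ≤ D2 q (0, h) y := by
  obtain ⟨p, t⟩ := y
  have h1 := (hq p).2 (mem_univ (t + h)) (mem_univ (t - h)) (show (0 : ℝ) ≤ 1 / 2 by norm_num)
    (show (0 : ℝ) ≤ 1 / 2 by norm_num) (by norm_num)
  simp only [smul_eq_mul] at h1
  have h2 : 1 / 2 * (t + h) + 1 / 2 * (t - h) = t := by ring
  rw [h2] at h1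
  unfold D2
  have e1 : ((p, t) : ℝ × ℝ) + (0, h) = (p, t + h) := by ext <;> simp
  have e2 : ((p, t) : ℝ × ℝ) - (0, h) = (p, t - h) := by ext <;> simp
  rw [e1, e2]
  linarith

theorem regularity (W0 Φ W β : ℝ × ℝ → ℝ) (S : Set (ℝ × ℝ)) (J : Jets) (δ : ℝ) (c s : ℕ → ℝ)
    (hR : Reg W0 Φ β S J δ c s) (hW0 : Continuous W0)
    (hconv : ∀ p, ConvexOn ℝ univ fun t => W0 (p, t)) (hΦ : Continuous Φ)
    (hS : ∀ z ∈ S, Φ z = W0 z) (M : ℝ) (hM : 0 < M)
    (hupp : ∀ v y : ℝ × ℝ, D2 Φ v y ≤ M * v.2 ^ 2 - v.1 ^ 2 / M)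
    (hW : Continuous W) (hge : ∀ z, W0 z ≤ W z) (hle : ∀ z, W z ≤ Φ z) (hcls : Cls β W)
    (hmax : ∀ q : ℝ × ℝ → ℝ, Continuous q → Cls β q → (∀ y, q y ≤ Φ y) → ∀ y, q y ≤ W y)
    (v y : ℝ × ℝ) : D2 W v y ≤ M * v.2 ^ 2 - v.1 ^ 2 / M + δ * sq v := by
  have hsv0 : 0 ≤ sq v := by
    unfold sq
    positivity
  rcases hsv0.eq_or_lt with hv | hv
  · have h1 : v.1 = 0 := by
      unfold sq at hv
      have := sq_nonneg v.1
      have := sq_nonneg v.2
      exact pow_eq_zero_iff (two_ne_zero) |>.1 (by linarith)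
    have h2 : v.2 = 0 := by
      unfold sq at hv
      have := sq_nonneg v.1
      have := sq_nonneg v.2
      exact pow_eq_zero_iff (two_ne_zero) |>.1 (by linarith)
    have h3 : v = 0 := Prod.ext h1 h2
    rw [← hv, h3]
    unfold D2
    rw [add_zero, sub_zero, Prod.fst_zero, Prod.snd_zero]
    have : W y + W y - 2 * W y = 0 := by ring
    rw [this]
    norm_num
  · obtain ⟨R, hRc, hRm, hR0, hRmax, hRinv, hRsub⟩ := exists_R c s hR.cnn hR.spos hR.summ δ hR.sum
      (sq v / 2) (by positivity)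
    set Qv : ℝ := M * v.2 ^ 2 - v.1 ^ 2 / M with hQv
    set H : ℝ × ℝ → ℝ := fun z => (W (z + v) + W (z - v)) / 2 - Qv / 2 with hH
    have hHΦ : ∀ z, H z ≤ Φ z := by
      intro z
      have h1 := hle (z + v)
      have h2 := hle (z - v)
      have h3 := hupp v z
      unfold D2 at h3
      simp only [hH]
      linarith
    have hRnn : ∀ x, 0 ≤ R x := by
      intro x
      rw [← hR0 (min x 0) (min_le_right _ _)]
      exact hRm (min_le_left _ _)
    have hRcont : Continuous R := by
      rw [← continuousOn_univ]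
      exact hRc.continuousOn isOpen_univ
    have hHc : Continuous H := by
      have h1 : Continuous fun z : ℝ × ℝ => W (z + v) := hW.comp (by fun_prop)
      have h2 : Continuous fun z : ℝ × ℝ => W (z - v) := hW.comp (by fun_prop)
      exact ((h1.add h2).div_const 2).sub continuous_const
    set Qh : ℝ × ℝ → ℝ := fun z => W0 z + R (H z - W0 z) with hQh
    have hQc : Continuous Qh := hW0.add (hRcont.comp (hHc.sub hW0))
    have hQΦ : ∀ z, Qh z ≤ Φ z := by
      intro z
      have h1 := hRmax (H z - W0 z)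
      have h2 := hHΦ z
      have h3 := le_trans (hge z) (hle z)
      have h4 : max (H z - W0 z) 0 ≤ Φ z - W0 z := max_le (by linarith) (by linarith)
      simp only [hQh]
      linarith
    -- the key inequality
    have key : ∀ z ρ : _, (∀ x, R (H z - W0 z) + ρ * (x - (H z - W0 z)) ≤ R x) → ∀ u : ℝ × ℝ,
        (1 - ρ) * D2 W0 u z + ρ * D2 H u z ≤ D2 Qh u z := by
      intro z ρ hρ u
      have h1 := hρ (H (z + u) - W0 (z + u))
      have h2 := hρ (H (z - u) - W0 (z - u))
      simp only [D2, hQh]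
      nlinarith
    have key0 : ∀ z, R (H z - W0 z) = 0 → ∀ u : ℝ × ℝ, D2 W0 u z ≤ D2 Qh u z := by
      intro z hz u
      have h1 := hRnn (H (z + u) - W0 (z + u))
      have h2 := hRnn (H (z - u) - W0 (z - u))
      simp only [D2, hQh]
      rw [hz]
      linarith
    have hDH : ∀ u z, D2 H u z = (D2 W u (z + v) + D2 W u (z - v)) / 2 := by
      intro u z
      have e1 : z + u + v = z + v + u := by abel
      have e2 : z + u - v = z - v + u := by abel
      have e3 : z - u + v = z + v - u := by abel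
      have e4 : z - u - v = z - v - u := by abel
      simp only [D2, hH, e1, e2, e3, e4]
      ring
    have hQcls : Cls β Qh := by
      apply cls_of_pointwise β Qh hR.cont hQc
      · intro z κ hκ
        by_cases hz : z ∈ S
        · -- (i)
          obtain ⟨h0, hh0, h1⟩ := hR.on z hz κ hκ
          refine ⟨h0, hh0, fun h ha hb => ?_⟩
          have h2 := h1 h ha hb
          have h3 : R (H z - W0 z) = 0 := by
            apply hR0
            have := hHΦ z
            rw [hS z hz] at this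
            linarith
          have h4 := key0 z h3 (h, 0)
          rw [hR.eq z hz]
          linarith
        · by_cases hx : H z - W0 z < 0
          · -- (ii)
            have h3 : R (H z - W0 z) = 0 := hR0 _ hx.le
            rcases hR.off z hz with ⟨_, hP⟩ | ⟨k, κ', hκ', _, hP, _⟩
            · obtain ⟨h0, hh0, h1⟩ := hP κ hκ
              refine ⟨h0, hh0, fun h ha hb => ?_⟩
              have h2 := h1 h ha hb
              have h4 := key0 z h3 (h, 0)
              linarith
            · obtain ⟨h0, hh0, h1⟩ := hP κ hκ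
              refine ⟨h0, hh0, fun h ha hb => ?_⟩
              have h2 := h1 h ha hb
              have h4 := key0 z h3 (h, 0)
              have h5 : 0 ≤ κ' * h ^ 2 := by positivity
              nlinarith
          · -- (iii)
            have hx0 : 0 ≤ H z - W0 z := not_lt.1 hx
            obtain ⟨ρ, hρ0, hρ1, hρs, hρk⟩ := hRsub (H z - W0 z)
            obtain ⟨a1, ha1, b1⟩ := cls_pointwise β W hR.cont hcls (z + v) κ hκ
            obtain ⟨a2, ha2, b2⟩ := cls_pointwise β W hR.cont hcls (z - v) κ hκ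
            -- common part
            have common : ∀ m : ℝ, PLB W0 z m →
                β z ≤ (1 - ρ) * m + ρ * ((β (z + v) + β (z - v)) / 2) →
                ∃ h0 : ℝ, 0 < h0 ∧ ∀ h : ℝ, 0 < h → h < h0 →
                  (β z - κ) * h ^ 2 ≤ D2 Qh (h, 0) z := by
              intro m hm hβ
              obtain ⟨a3, ha3, b3⟩ := hm κ hκ
              refine ⟨min a1 (min a2 a3), lt_min ha1 (lt_min ha2 ha3), fun h ha hb => ?_⟩
              obtain ⟨hb1, hb'⟩ := lt_min_iff.1 hb
              obtain ⟨hb2, hb3⟩ := lt_min_iff.1 hb'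
              have c1 := b1 h ha hb1
              have c2 := b2 h ha hb2
              have c3 := b3 h ha hb3
              have c4 := key z ρ hρs (h, 0)
              rw [hDH] at c4
              have c5 : ((β (z + v) + β (z - v)) / 2 - κ) * h ^ 2 ≤
                  (D2 W (h, 0) (z + v) + D2 W (h, 0) (z - v)) / 2 := by linarith
              have c6 := mul_le_mul_of_nonneg_left c3 (sub_nonneg.2 hρ1)
              have c7 := mul_le_mul_of_nonneg_left c5 hρ0
              have c8 := mul_le_mul_of_nonneg_right hβ (sq_nonneg h)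
              refine le_trans ?_ (le_trans (add_le_add c6 c7) c4)
              nlinarith
            rcases hR.off z hz with ⟨hD, hP⟩ | ⟨k, κ', hκ', hD, hP, hk⟩
            · apply common _ hP
              have h1 := hD v
              unfold D2 at h1
              have h2 : β z ≤ (β (z + v) + β (z - v)) / 2 := by linarith
              have h3 := mul_le_mul_of_nonneg_left h2 hρ0
              linarith
            · apply common _ hP
              have h1 := hD v
              unfold D2 at h1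
              have h2 : β z - sq v / 2 * c k * κ' ≤ (β (z + v) + β (z - v)) / 2 := by linarith
              have h3 := mul_le_mul_of_nonneg_left h2 hρ0
              have h4 := hρk k hx0 (lt_of_le_of_lt (by linarith [hHΦ z]) hk)
              have h5 := mul_le_mul_of_nonneg_left h4 hκ'.le
              nlinarith
      · intro z κ hκ
        obtain ⟨ρ, hρ0, hρ1, hρs, _⟩ := hRsub (H z - W0 z)
        refine ⟨1, one_pos, fun h _ _ => ?_⟩
        have h1 := key z ρ hρs (0, h)
        have h2 := reg_t hconv h z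
        have h3 := reg_t hcls.1 h (z + v)
        have h4 := reg_t hcls.1 h (z - v)
        rw [hDH] at h1
        have h5 := mul_nonneg (sub_nonneg.2 hρ1) h2
        have h6 : 0 ≤ ρ * ((D2 W (0, h) (z + v) + D2 W (0, h) (z - v)) / 2) := by positivity
        have h7 : 0 ≤ κ * h ^ 2 := by positivity
        linarith
    have h1 := hmax Qh hQc hQcls hQΦ y
    have h2 : R (H y - W0 y) ≤ W y - W0 y := by
      simp only [hQh] at h1
      linarith
    have h3 := hRinv _ _ (sub_nonneg.2 (hge y)) h2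
    simp only [hH] at h3
    unfold D2
    nlinarith

end Pool.Agent.MP_4eca41
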