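import Pool.Agent.Work.MP_4eca41_an.D.D1Defs
import Pool.Agent.Work.MP_4eca41_an.T.T7

/-!
# D1A: the families exist  (paper D1)

PROOF.  `G v = sSup {max (f (z1+v) - f z1 - J.q z1 v) 0 | z1 ∈ K1}` (`0` if `K1` is empty; e.g. `⨆` over the set `insert 0 ...`).  `K1` compact: `f` on `K1`, the coefficients are bounded there,
`f z ≤ C (1 + sq z)`: for `sq v ≥ δ0^2` (`δ0` from `Exp2.ex` with `ε = 1`): `f (z1+v) - f z1 - J.q z1 v ≤ C'(1 + sq v) ≤ C'' sq v`; for `sq v ≤ δ0^2` it is `≤ sq v`.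
So `t7` applies (`G v ≤ ε sq v` for small `v` by `Exp2.ex`).  `m1`: `f (z1+v) ≤ f z1 + J.q z1 v + G v ≤ mem1 - θ v/2`, `v = z - z1`.
`η`: the continuous function `f - ft` is positive on the compact `K'`: `≥ 2 η`.  (`f`, `ft` continuous.)  `M'`: `ft` is convex and finite, so Lipschitz with a constant `Λ` on the ball of radius 1 around the compact
`K'`: for `sq v ≤ 1`: `ft (z0+v) ≤ ft z0 + Λ |v| ≤ ft z0 + η/2 + (M'/2) sq v` if `M' ≥ Λ^2/η`; for `sq v ≥ 1`: `ft (z0+v) ≤ f (z0+v) ≤ C(1 + sq (z0+v)) ≤ ft z0 + (M'/2) sq v` for `M'` large.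
`m3`: `f ≤ C (1 + sq z)`, enlarge `C` so that `C > 0`.  `b1`: `D2 (J.q z1 (· - z1)) v z = J.a v.1^2 + 2 J.b v.1 v.2 + J.c v.2^2 ≤ C' sq v` plus `D2 θ ≤ M sq v`.  Take `M` the maximum.
-/

set_option autoImplicit false

open Set MeasureTheory

namespace Pool.Agent.MP_4eca41

private theorem d1a_sqnn (v : ℝ × ℝ) : 0 ≤ sq v := by
  unfold sq; positivity

private theorem d1a_sqadd (z v : ℝ × ℝ) : sq (z + v) ≤ 2 * sq z + 2 * sq v := by
  unfold sq
  simp only [Prod.fst_add, Prod.snd_add]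
  nlinarith [sq_nonneg (z.1 - v.1), sq_nonneg (z.2 - v.2)]

private theorem d1a_q {J : Jets} {B : ℝ} {z1 : ℝ × ℝ} (hp : |J.p z1| ≤ B) (hs : |J.s z1| ≤ B)
    (ha : |J.a z1| ≤ B) (hb : |J.b z1| ≤ B) (hc : |J.c z1| ≤ B) (v : ℝ × ℝ) :
    -J.q z1 v ≤ 2 * B * (1 + sq v) := by
  have hB : 0 ≤ B := le_trans (abs_nonneg _) hp
  have h1 : |J.p z1 * v.1| ≤ B * ((1 + v.1 ^ 2) / 2) := by
    rw [abs_mul]
    have : |v.1| ≤ (1 + v.1 ^ 2) / 2 := by
      have h := sq_abs v.1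
      nlinarith [sq_nonneg (|v.1| - 1)]
    exact mul_le_mul hp this (abs_nonneg _) hB
  have h2 : |J.s z1 * v.2| ≤ B * ((1 + v.2 ^ 2) / 2) := by
    rw [abs_mul]
    have : |v.2| ≤ (1 + v.2 ^ 2) / 2 := by
      have h := sq_abs v.2
      nlinarith [sq_nonneg (|v.2| - 1)]
    exact mul_le_mul hs this (abs_nonneg _) hB
  have h3 : |J.a z1 * v.1 ^ 2| ≤ B * v.1 ^ 2 := by
    rw [abs_mul, abs_of_nonneg (sq_nonneg v.1)]
    exact mul_le_mul_of_nonneg_right ha (sq_nonneg _)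
  have h4 : |J.c z1 * v.2 ^ 2| ≤ B * v.2 ^ 2 := by
    rw [abs_mul, abs_of_nonneg (sq_nonneg v.2)]
    exact mul_le_mul_of_nonneg_right hc (sq_nonneg _)
  have h5 : |J.b z1 * (2 * (v.1 * v.2))| ≤ B * (v.1 ^ 2 + v.2 ^ 2) := by
    rw [abs_mul]
    have : |2 * (v.1 * v.2)| ≤ v.1 ^ 2 + v.2 ^ 2 := by
      rw [abs_le]
      constructor <;> nlinarith [sq_nonneg (v.1 + v.2), sq_nonneg (v.1 - v.2)]
    exact mul_le_mul hb this (abs_nonneg _) hB
  rw [abs_le] at h1 h2 h3 h4 h5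
  unfold Jets.q sq
  have i1 := h1.1
  have i2 := h2.1
  have i3 := h3.1
  have i4 := h4.1
  have i5 := h5.1
  have i6 := mul_nonneg hB (sq_nonneg v.1)
  have i7 := mul_nonneg hB (sq_nonneg v.2)
  linarith

private theorem d1a_unif {ft : ℝ × ℝ → ℝ} (hc : Continuous ft) {K' : Set (ℝ × ℝ)} (hK' : IsCompact K')
    {ε : ℝ} (hε : 0 < ε) : ∃ δ : ℝ, 0 < δ ∧ ∀ z0 ∈ K', ∀ v, sq v ≤ δ ^ 2 → ft (z0 + v) ≤ ft z0 + ε := by
  have h := hK'.uniformContinuousAt_of_continuousAt ft (fun a _ => hc.continuousAt)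
    (Metric.dist_mem_uniformity hε)
  rw [Metric.mem_uniformity_dist] at h
  obtain ⟨δ, hδ, h⟩ := h
  refine ⟨δ / 2, by positivity, fun z0 hz0 v hv => ?_⟩
  have h1 : |v.1| ≤ δ / 2 := by
    apply abs_le_of_sq_le_sq _ (by positivity)
    unfold sq at hv
    nlinarith [sq_nonneg v.2]
  have h2 : |v.2| ≤ δ / 2 := by
    apply abs_le_of_sq_le_sq _ (by positivity)
    unfold sq at hv
    nlinarith [sq_nonneg v.1]
  have h3 : dist z0 (z0 + v) < δ := by
    rw [Prod.dist_eq]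
    simp only [Prod.fst_add, Prod.snd_add, Real.dist_eq]
    have e1 : z0.1 - (z0.1 + v.1) = -v.1 := by ring
    have e2 : z0.2 - (z0.2 + v.2) = -v.2 := by ring
    rw [e1, e2, abs_neg, abs_neg]
    exact max_lt (by linarith) (by linarith)
  have h4 := h h3 hz0
  simp only [mem_ofPred_eq, Real.dist_eq] at h4
  rw [abs_lt] at h4
  linarith [h4.1]

theorem exists_memF (f : ℝ × ℝ → ℝ) (hf : ConvexOn ℝ univ f) (hg : Gr f)
    (K1 : Set (ℝ × ℝ)) (hK1 : IsCompact K1) (J : Jets) (hE : Exp2 f K1 J)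
    (ft : ℝ × ℝ → ℝ) (hft : ConvexOn ℝ univ ft) (hle : ∀ z, ft z ≤ f z)
    (K' : Set (ℝ × ℝ)) (hK' : IsCompact K') (hs : ∀ z ∈ K', ft z < f z) :
    ∃ (θ : ℝ × ℝ → ℝ) (η M' C M : ℝ), MemF f ft K1 K' J θ η M' C M := by
  have hfc : Continuous f := continuous_of_convex f hf
  have hftc : Continuous ft := continuous_of_convex ft hft
  have hsqc : Continuous sq := by unfold sq; fun_prop
  obtain ⟨c0, Cg, hc0, hgr⟩ := hg
  -- the constant C
  set C : ℝ := max Cg 1 with hC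
  have hC1 : 1 ≤ C := le_max_right _ _
  have hC0 : 0 < C := by linarith
  have hfC : ∀ z, f z ≤ C * (1 + sq z) := fun z =>
    le_trans (hgr z).2 (mul_le_mul_of_nonneg_right (le_max_left _ _) (by linarith [d1a_sqnn z]))
  -- bounds on K1
  obtain ⟨b1, hb1⟩ := hK1.exists_bound_of_continuousOn hfc.continuousOn
  obtain ⟨b2, hb2⟩ := hK1.exists_bound_of_continuousOn hE.cp
  obtain ⟨b3, hb3⟩ := hK1.exists_bound_of_continuousOn hE.cs
  obtain ⟨b4, hb4⟩ := hK1.exists_bound_of_continuousOn hE.ca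
  obtain ⟨b5, hb5⟩ := hK1.exists_bound_of_continuousOn hE.cb
  obtain ⟨b6, hb6⟩ := hK1.exists_bound_of_continuousOn hE.cc
  obtain ⟨b7, hb7⟩ := hK1.exists_bound_of_continuousOn hsqc.continuousOn
  simp only [Real.norm_eq_abs] at hb1 hb2 hb3 hb4 hb5 hb6 hb7
  set B : ℝ := |b1| + |b2| + |b3| + |b4| + |b5| + |b6| + |b7| + 1 with hB
  have n1 := abs_nonneg b1
  have n2 := abs_nonneg b2
  have n3 := abs_nonneg b3
  have n4 := abs_nonneg b4
  have n5 := abs_nonneg b5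
  have n6 := abs_nonneg b6
  have n7 := abs_nonneg b7
  have l1 := le_abs_self b1
  have l2 := le_abs_self b2
  have l3 := le_abs_self b3
  have l4 := le_abs_self b4
  have l5 := le_abs_self b5
  have l6 := le_abs_self b6
  have l7 := le_abs_self b7
  have hB1 : 1 ≤ B := by linarith
  have hB0 : 0 < B := by linarith
  have g1 : ∀ z ∈ K1, |f z| ≤ B := fun z hz => le_trans (hb1 z hz) (by linarith)
  have g2 : ∀ z ∈ K1, |J.p z| ≤ B := fun z hz => le_trans (hb2 z hz) (by linarith)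
  have g3 : ∀ z ∈ K1, |J.s z| ≤ B := fun z hz => le_trans (hb3 z hz) (by linarith)
  have g4 : ∀ z ∈ K1, |J.a z| ≤ B := fun z hz => le_trans (hb4 z hz) (by linarith)
  have g5 : ∀ z ∈ K1, |J.b z| ≤ B := fun z hz => le_trans (hb5 z hz) (by linarith)
  have g6 : ∀ z ∈ K1, |J.c z| ≤ B := fun z hz => le_trans (hb6 z hz) (by linarith)
  have g7 : ∀ z ∈ K1, sq z ≤ B := fun z hz =>
    le_trans (le_abs_self _) (le_trans (hb7 z hz) (by linarith))
  -- upper bound of the increments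
  set K : ℝ := C * (3 + 2 * B) + 3 * B with hK
  have hK0 : 0 < K := by positivity
  have hinc : ∀ z1 ∈ K1, ∀ v, f (z1 + v) - f z1 - J.q z1 v ≤ K * (1 + sq v) := by
    intro z1 hz1 v
    have h1 := hfC (z1 + v)
    have h2 := d1a_sqadd z1 v
    have h3 := g7 z1 hz1
    have h4 := (abs_le.1 (g1 z1 hz1)).1
    have h5 := d1a_q (g2 z1 hz1) (g3 z1 hz1) (g4 z1 hz1) (g5 z1 hz1) (g6 z1 hz1) v
    have h6 := d1a_sqnn v
    have h7 : C * (1 + sq (z1 + v)) ≤ C * (1 + 2 * B + 2 * sq v) :=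
      mul_le_mul_of_nonneg_left (by linarith) hC0.le
    have h8 : C * (1 + 2 * B + 2 * sq v) ≤ C * (3 + 2 * B) * (1 + sq v) := by
      have : (1 + 2 * B + 2 * sq v) ≤ (3 + 2 * B) * (1 + sq v) := by nlinarith
      calc C * (1 + 2 * B + 2 * sq v) ≤ C * ((3 + 2 * B) * (1 + sq v)) :=
            mul_le_mul_of_nonneg_left this hC0.le
        _ = _ := by ring
    have h9 : B ≤ B * (1 + sq v) := by nlinarith
    calc f (z1 + v) - f z1 - J.q z1 v ≤ C * (3 + 2 * B) * (1 + sq v) + B * (1 + sq v)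
          + 2 * B * (1 + sq v) := by linarith
      _ = K * (1 + sq v) := by rw [hK]; ring
  -- the function G
  set S : ℝ × ℝ → Set ℝ := fun v => insert 0 ((fun z1 => f (z1 + v) - f z1 - J.q z1 v) '' K1) with hS
  have hSb : ∀ v (m : ℝ), 0 ≤ m → (∀ z1 ∈ K1, f (z1 + v) - f z1 - J.q z1 v ≤ m) →
      sSup (S v) ≤ m := by
    intro v m hm h
    refine csSup_le ⟨0, mem_insert _ _⟩ ?_
    rintro x (rfl | ⟨z1, hz1, rfl⟩)
    · exact hm
    · exact h z1 hz1
  have hSa : ∀ v, BddAbove (S v) := by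
    intro v
    refine ⟨K * (1 + sq v), ?_⟩
    rintro x (rfl | ⟨z1, hz1, rfl⟩)
    · have := d1a_sqnn v
      positivity
    · exact hinc z1 hz1 v
  have hG0 : ∀ v, 0 ≤ sSup (S v) := fun v => le_csSup (hSa v) (mem_insert _ _)
  have hG1 : ∀ z1 ∈ K1, ∀ v, f (z1 + v) - f z1 - J.q z1 v ≤ sSup (S v) := fun z1 hz1 v =>
    le_csSup (hSa v) (mem_insert_of_mem _ ⟨z1, hz1, rfl⟩)
  have hGs : ∀ ε : ℝ, 0 < ε → ∃ δ : ℝ, 0 < δ ∧ ∀ v, sq v ≤ δ ^ 2 → sSup (S v) ≤ ε * sq v := by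
    intro ε hε
    obtain ⟨δ, hδ, h⟩ := hE.ex ε hε
    refine ⟨δ, hδ, fun v hv => hSb v _ (mul_nonneg hε.le (d1a_sqnn v)) fun z1 hz1 => ?_⟩
    exact le_trans (le_abs_self _) (h z1 hz1 v hv)
  obtain ⟨δ0, hδ0, hG2⟩ := hGs 1 one_pos
  have hGC : ∀ v, sSup (S v) ≤ (1 + K * (1 + 1 / δ0 ^ 2)) * sq v := by
    intro v
    have hv := d1a_sqnn v
    have hp : 0 < 1 / δ0 ^ 2 := by positivity
    rcases le_total (sq v) (δ0 ^ 2) with h | h
    · refine le_trans (hG2 v h) (mul_le_mul_of_nonneg_right ?_ hv)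
      have : 0 ≤ K * (1 + 1 / δ0 ^ 2) := by positivity
      linarith
    · have h1 : (1 : ℝ) ≤ 1 / δ0 ^ 2 * sq v := by
        rw [one_div, ← div_eq_inv_mul, le_div_iff₀ (by positivity)]
        linarith
      refine hSb v _ (by positivity) fun z1 hz1 => ?_
      refine le_trans (hinc z1 hz1 v) ?_
      have h2 : K * (1 + sq v) ≤ K * ((1 + 1 / δ0 ^ 2) * sq v) :=
        mul_le_mul_of_nonneg_left (by nlinarith) hK0.le
      nlinarith
  obtain ⟨θ, t1, t2, t3, t4, t5, ⟨Mθ, hMθ, t6⟩, t7', t8⟩ := t7 (fun v => sSup (S v)) hG0 _ hGC hGs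
  -- the constant η
  obtain ⟨a', ha', hmin⟩ := hK'.exists_forall_le' (f := fun z => f z - ft z)
    ((hfc.sub hftc).continuousOn) (a := 0) (fun z hz => by have := hs z hz; simpa using this)
  -- the constant M'
  obtain ⟨δ1, hδ1, hu⟩ := d1a_unif hftc hK' (ε := a' / 4) (by positivity)
  obtain ⟨e1, he1⟩ := hK'.exists_bound_of_continuousOn hftc.continuousOn
  obtain ⟨e2, he2⟩ := hK'.exists_bound_of_continuousOn hsqc.continuousOn
  simp only [Real.norm_eq_abs] at he1 he2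
  set B' : ℝ := |e1| + |e2| + 1 with hB'
  have m1 := abs_nonneg e1
  have m2 := abs_nonneg e2
  have k1 := le_abs_self e1
  have k2 := le_abs_self e2
  have hB'0 : 0 < B' := by linarith
  have f1 : ∀ z ∈ K', -B' ≤ ft z := fun z hz => by
    have := (abs_le.1 (he1 z hz)).1
    linarith
  have f2 : ∀ z ∈ K', sq z ≤ B' := fun z hz =>
    le_trans (le_abs_self _) (le_trans (he2 z hz) (by linarith))
  set L : ℝ := C * (3 + 2 * B') + B' with hL
  have hL0 : 0 < L := by positivity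
  set M' : ℝ := 2 * (L * (1 + 1 / δ1 ^ 2)) with hM'
  have hM'0 : 0 < M' := by positivity
  have hinc2 : ∀ z0 ∈ K', ∀ v, ft (z0 + v) ≤ ft z0 + L * (1 + sq v) := by
    intro z0 hz0 v
    have h1 := hfC (z0 + v)
    have h2 := d1a_sqadd z0 v
    have h3 := f2 z0 hz0
    have h4 := f1 z0 hz0
    have h6 := d1a_sqnn v
    have h7 : C * (1 + sq (z0 + v)) ≤ C * (1 + 2 * B' + 2 * sq v) :=
      mul_le_mul_of_nonneg_left (by linarith) hC0.le
    have h8 : C * (1 + 2 * B' + 2 * sq v) ≤ C * (3 + 2 * B') * (1 + sq v) := by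
      have : (1 + 2 * B' + 2 * sq v) ≤ (3 + 2 * B') * (1 + sq v) := by nlinarith
      calc C * (1 + 2 * B' + 2 * sq v) ≤ C * ((3 + 2 * B') * (1 + sq v)) :=
            mul_le_mul_of_nonneg_left this hC0.le
        _ = _ := by ring
    have h9 : B' ≤ B' * (1 + sq v) := by nlinarith
    have h10 := hle (z0 + v)
    calc ft (z0 + v) ≤ ft z0 + (C * (3 + 2 * B') * (1 + sq v) + B' * (1 + sq v)) := by linarith
      _ = ft z0 + L * (1 + sq v) := by rw [hL]; ring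
  have hm2 : ∀ z0 ∈ K', ∀ v, ft (z0 + v) ≤ ft z0 + a' / 4 + M' / 2 * sq v := by
    intro z0 hz0 v
    have hv := d1a_sqnn v
    rcases le_total (sq v) (δ1 ^ 2) with h | h
    · have := hu z0 hz0 v h
      have h2 : 0 ≤ M' / 2 * sq v := by positivity
      linarith
    · have h1 : (1 : ℝ) ≤ 1 / δ1 ^ 2 * sq v := by
        rw [one_div, ← div_eq_inv_mul, le_div_iff₀ (by positivity)]
        linarith
      have h2 : L * (1 + sq v) ≤ L * ((1 + 1 / δ1 ^ 2) * sq v) :=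
        mul_le_mul_of_nonneg_left (by nlinarith) hL0.le
      have h3 := hinc2 z0 hz0 v
      have h4 : M' / 2 * sq v = L * ((1 + 1 / δ1 ^ 2) * sq v) := by rw [hM']; ring
      rw [h4]
      linarith
  refine ⟨θ, a' / 2, M', C, max (max (2 * B + Mθ) M') (2 * C), ?_⟩
  refine ⟨t1, t2, t4, t5, t7', t8, by positivity, hC0, ?_, ?_, ?_, ?_, ?_, ?_, ?_, ?_⟩
  · exact lt_of_lt_of_le (by positivity : (0 : ℝ) < 2 * C) (le_max_right _ _)
  · intro z1 hz1 z
    have h1 := hG1 z1 hz1 (z - z1)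
    have h2 := t3 (z - z1)
    rw [add_sub_cancel] at h1
    unfold mem1
    linarith
  · intro z0 hz0 z
    have h1 := hm2 z0 hz0 (z - z0)
    rw [add_sub_cancel] at h1
    unfold mem2
    linarith
  · intro z0 hz0
    have := hmin z0 hz0
    linarith
  · intro z
    unfold mem3
    linarith [hfC z]
  · intro z1 hz1 v z
    have h1 : D2 (mem1 f J θ z1) v z =
        (J.a z1 * v.1 ^ 2 + 2 * J.b z1 * v.1 * v.2 + J.c z1 * v.2 ^ 2) + D2 θ v (z - z1) := by
      unfold D2 mem1 Jets.q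
      have e1 : z + v - z1 = z - z1 + v := by abel
      have e2 : z - v - z1 = z - z1 - v := by abel
      rw [e1, e2]
      simp only [Prod.fst_add, Prod.snd_add, Prod.fst_sub, Prod.snd_sub]
      ring
    have h2 := t6 v (z - z1)
    have h3 : J.a z1 * v.1 ^ 2 + 2 * J.b z1 * v.1 * v.2 + J.c z1 * v.2 ^ 2 ≤ 2 * B * sq v := by
      have q1 := (abs_le.1 (g4 z1 hz1)).2
      have q2 := g5 z1 hz1
      have q3 := (abs_le.1 (g6 z1 hz1)).2
      have q4 : |J.b z1 * (2 * (v.1 * v.2))| ≤ B * (v.1 ^ 2 + v.2 ^ 2) := by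
        rw [abs_mul]
        have : |2 * (v.1 * v.2)| ≤ v.1 ^ 2 + v.2 ^ 2 := by
          rw [abs_le]
          constructor <;> nlinarith [sq_nonneg (v.1 + v.2), sq_nonneg (v.1 - v.2)]
        exact mul_le_mul q2 this (abs_nonneg _) hB0.le
      have q5 := (abs_le.1 q4).2
      have q6 : J.a z1 * v.1 ^ 2 ≤ B * v.1 ^ 2 := mul_le_mul_of_nonneg_right q1 (sq_nonneg _)
      have q7 : J.c z1 * v.2 ^ 2 ≤ B * v.2 ^ 2 := mul_le_mul_of_nonneg_right q3 (sq_nonneg _)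
      unfold sq
      linarith [mul_nonneg hB0.le (sq_nonneg v.1), mul_nonneg hB0.le (sq_nonneg v.2)]
    rw [h1]
    have h4 : (2 * B + Mθ) * sq v ≤ max (max (2 * B + Mθ) M') (2 * C) * sq v :=
      mul_le_mul_of_nonneg_right (le_trans (le_max_left _ _) (le_max_left _ _)) (d1a_sqnn v)
    linarith
  · exact le_trans (le_max_right _ _) (le_max_left _ _)
  · exact le_max_right _ _

end Pool.Agent.MP_4eca41
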