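import Pool.Agent.Work.MP_4eca41_an.D.D1Defs

/-!
# D1B: the function `FF`  (paper D1 (a), (b), (c))

PROOF.  For fixed `z` the set of values is nonempty and compact (`z1 ↦ mem1 f J θ z1 z` is continuous on the compact `K1`: `f`, the coefficients on `K1`, `θ` are continuous; `z0 ↦ mem2 … z0 z` is continuous
because `ft` is), so the infimum is attained (`IsCompact.sInf_mem`).  Lower bound: every member is `≥ ft z` (`m1, m2, m3`, `ft ≤ f`, `θ ≥ 0`), so `FF ≥ ft`, and `Low (FF)` from `Low ft`; `FF ≤ mem3`.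
`D2 FF v z ≤ M sq v`: if the member `m` is active at `z` then `FF (z ± v) ≤ m (z ± v)`, `D2 FF v z ≤ D2 m v z` (for `mem2`: `D2 = M' sq v`, for `mem3`: `D2 = 2 C sq v`).
Continuity: `-FF + (M/2) sq z` satisfies midpoint convexity; easier: `FF` is an infimum over a compact family which is jointly continuous: `(z1, z) ↦ mem1 f J θ z1 z` is continuous on `K1 × (plane)`, so the
infimum over `K1` is continuous in `z` (`IsCompact.continuous_sInf` or an `ε/δ` argument with uniform continuity on compact sets); the same for `K'`; `FF` is the minimum of at most three continuous functions.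
-/

set_option autoImplicit false

open Set MeasureTheory

namespace Pool.Agent.MP_4eca41

private theorem cont_cv {f : ℝ × ℝ → ℝ} (hf : ConvexOn ℝ univ f) : Continuous f := by
  rw [← continuousOn_univ]
  exact hf.continuousOn isOpen_univ

private theorem m1_cont {f : ℝ × ℝ → ℝ} (hf : ConvexOn ℝ univ f) {K1 : Set (ℝ × ℝ)} {J : Jets}
    (hE : Exp2 f K1 J) {θ : ℝ × ℝ → ℝ} (hθ : Continuous θ) :
    Continuous fun x : (ℝ × ℝ) × K1 => mem1 f J θ x.2 x.1 := by
  have hv : Continuous fun x : (ℝ × ℝ) × K1 => (x.2 : ℝ × ℝ) :=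
    continuous_subtype_val.comp continuous_snd
  have h1 : Continuous fun x : (ℝ × ℝ) × K1 => f x.2 := (cont_cv hf).comp hv
  have hd : Continuous fun x : (ℝ × ℝ) × K1 => x.1 - (x.2 : ℝ × ℝ) := continuous_fst.sub hv
  have hd1 : Continuous fun x : (ℝ × ℝ) × K1 => (x.1 - (x.2 : ℝ × ℝ)).1 := continuous_fst.comp hd
  have hd2 : Continuous fun x : (ℝ × ℝ) × K1 => (x.1 - (x.2 : ℝ × ℝ)).2 := continuous_snd.comp hd
  have hc : ∀ g : ℝ × ℝ → ℝ, ContinuousOn g K1 →
      Continuous fun x : (ℝ × ℝ) × K1 => g x.2 := by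
    intro g hg
    exact (continuousOn_iff_continuous_domRestrict.1 hg).comp continuous_snd
  have cp := hc _ hE.cp
  have cs := hc _ hE.cs
  have ca := hc _ hE.ca
  have cb := hc _ hE.cb
  have cc := hc _ hE.cc
  have hq : Continuous fun x : (ℝ × ℝ) × K1 => J.q x.2 (x.1 - x.2) := by
    unfold Jets.q
    exact ((cp.mul hd1).add (cs.mul hd2)).add
      ((((ca.mul (hd1.pow 2)).add (((continuous_const.mul cb).mul hd1).mul hd2)).add
        (cc.mul (hd2.pow 2))).div_const 2)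
  have ht : Continuous fun x : (ℝ × ℝ) × K1 => θ (x.1 - x.2) := hθ.comp hd
  unfold mem1
  exact (h1.add hq).add ht

private theorem m2_cont {ft : ℝ × ℝ → ℝ} (hft : ConvexOn ℝ univ ft) (η M' : ℝ) :
    Continuous fun x : (ℝ × ℝ) × (ℝ × ℝ) => mem2 ft η M' x.2 x.1 := by
  have h1 : Continuous fun x : (ℝ × ℝ) × (ℝ × ℝ) => ft x.2 := (cont_cv hft).comp continuous_snd
  have h2 : Continuous fun x : (ℝ × ℝ) × (ℝ × ℝ) => sq (x.1 - x.2) := by
    unfold sq
    fun_prop
  unfold mem2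
  exact (h1.add continuous_const).add (continuous_const.mul h2)

private theorem m3_cont (C : ℝ) : Continuous fun z : ℝ × ℝ => mem3 C z := by
  unfold mem3 sq
  fun_prop

private theorem im1_compact {f : ℝ × ℝ → ℝ} (hf : ConvexOn ℝ univ f) {K1 : Set (ℝ × ℝ)}
    (hK1 : IsCompact K1) {J : Jets} (hE : Exp2 f K1 J) {θ : ℝ × ℝ → ℝ} (hθ : Continuous θ)
    (z : ℝ × ℝ) : IsCompact ((fun z1 => mem1 f J θ z1 z) '' K1) := by
  apply hK1.image_of_continuousOn
  rw [continuousOn_iff_continuous_domRestrict]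
  exact (m1_cont hf hE hθ).comp (continuous_const.prodMk continuous_id)

private theorem im2_compact {ft : ℝ × ℝ → ℝ} (hft : ConvexOn ℝ univ ft) {K' : Set (ℝ × ℝ)}
    (hK' : IsCompact K') (η M' : ℝ) (z : ℝ × ℝ) :
    IsCompact ((fun z0 => mem2 ft η M' z0 z) '' K') := by
  apply hK'.image
  exact (m2_cont hft η M').comp (continuous_const.prodMk continuous_id)

private theorem all_compact {f : ℝ × ℝ → ℝ} (hf : ConvexOn ℝ univ f) {K1 : Set (ℝ × ℝ)}
    (hK1 : IsCompact K1) {J : Jets} (hE : Exp2 f K1 J) {θ : ℝ × ℝ → ℝ} (hθ : Continuous θ)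
    {ft : ℝ × ℝ → ℝ} (hft : ConvexOn ℝ univ ft) {K' : Set (ℝ × ℝ)}
    (hK' : IsCompact K') (η M' C : ℝ) (z : ℝ × ℝ) :
    IsCompact ((fun z1 => mem1 f J θ z1 z) '' K1 ∪ (fun z0 => mem2 ft η M' z0 z) '' K' ∪
      {mem3 C z}) :=
  ((im1_compact hf hK1 hE hθ z).union (im2_compact hft hK' η M' z)).union isCompact_singleton

theorem ff_attained (f : ℝ × ℝ → ℝ) (hf : ConvexOn ℝ univ f)
    (K1 : Set (ℝ × ℝ)) (hK1 : IsCompact K1) (J : Jets) (hE : Exp2 f K1 J)
    (ft : ℝ × ℝ → ℝ) (hft : ConvexOn ℝ univ ft) (hle : ∀ z, ft z ≤ f z)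
    (K' : Set (ℝ × ℝ)) (hK' : IsCompact K') (θ : ℝ × ℝ → ℝ) (η M' C M : ℝ)
    (h : MemF f ft K1 K' J θ η M' C M) (z : ℝ × ℝ) :
    (∃ z1 ∈ K1, FF f ft K1 K' J θ η M' C z = mem1 f J θ z1 z) ∨
      (∃ z0 ∈ K', FF f ft K1 K' J θ η M' C z = mem2 ft η M' z0 z) ∨
      FF f ft K1 K' J θ η M' C z = mem3 C z := by
  have hc := all_compact hf hK1 hE h.θc hft hK' η M' C z
  have hne : ((fun z1 => mem1 f J θ z1 z) '' K1 ∪ (fun z0 => mem2 ft η M' z0 z) '' K' ∪
      {mem3 C z}).Nonempty := ⟨mem3 C z, Or.inr rfl⟩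
  have hm := hc.sInf_mem hne
  rcases hm with (⟨z1, h1, h2⟩ | ⟨z0, h1, h2⟩) | h1
  · exact Or.inl ⟨z1, h1, h2.symm⟩
  · exact Or.inr (Or.inl ⟨z0, h1, h2.symm⟩)
  · exact Or.inr (Or.inr h1)

theorem ff_le (f : ℝ × ℝ → ℝ) (hf : ConvexOn ℝ univ f)
    (K1 : Set (ℝ × ℝ)) (hK1 : IsCompact K1) (J : Jets) (hE : Exp2 f K1 J)
    (ft : ℝ × ℝ → ℝ) (hft : ConvexOn ℝ univ ft) (hle : ∀ z, ft z ≤ f z)
    (K' : Set (ℝ × ℝ)) (hK' : IsCompact K') (θ : ℝ × ℝ → ℝ) (η M' C M : ℝ)
    (h : MemF f ft K1 K' J θ η M' C M) (z : ℝ × ℝ) :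
    (∀ z1 ∈ K1, FF f ft K1 K' J θ η M' C z ≤ mem1 f J θ z1 z) ∧
      (∀ z0 ∈ K', FF f ft K1 K' J θ η M' C z ≤ mem2 ft η M' z0 z) ∧
      FF f ft K1 K' J θ η M' C z ≤ mem3 C z ∧ ft z ≤ FF f ft K1 K' J θ η M' C z := by
  have hc := all_compact hf hK1 hE h.θc hft hK' η M' C z
  have hb := hc.bddBelow
  refine ⟨fun z1 h1 => csInf_le hb (Or.inl (Or.inl ⟨z1, h1, rfl⟩)),
    fun z0 h0 => csInf_le hb (Or.inl (Or.inr ⟨z0, h0, rfl⟩)), csInf_le hb (Or.inr rfl), ?_⟩
  apply le_csInf ⟨mem3 C z, Or.inr rfl⟩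
  rintro x ((⟨z1, h1, rfl⟩ | ⟨z0, h0, rfl⟩) | h1)
  · have h2 := h.m1 z1 h1 z
    have h3 := h.θnn (z - z1)
    have h4 := hle z
    simp only
    linarith
  · have h2 := h.m2 z0 h0 z
    have h3 := h.η0
    simp only
    linarith
  · have h2 := h.m3 z
    have h4 := hle z
    rw [mem_singleton_iff] at h1
    rw [h1]
    linarith

theorem ff_continuous (f : ℝ × ℝ → ℝ) (hf : ConvexOn ℝ univ f)
    (K1 : Set (ℝ × ℝ)) (hK1 : IsCompact K1) (J : Jets) (hE : Exp2 f K1 J)
    (ft : ℝ × ℝ → ℝ) (hft : ConvexOn ℝ univ ft) (hle : ∀ z, ft z ≤ f z)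
    (K' : Set (ℝ × ℝ)) (hK' : IsCompact K') (θ : ℝ × ℝ → ℝ) (η M' C M : ℝ)
    (h : MemF f ft K1 K' J θ η M' C M) : Continuous (FF f ft K1 K' J θ η M' C) := by
  have c1 : Continuous fun z => sInf ((fun z1 => mem1 f J θ z1 z) '' K1) := by
    have : CompactSpace K1 := isCompact_iff_compactSpace.1 hK1
    have h1 : Continuous fun z : ℝ × ℝ => sInf ((fun z1 : K1 => mem1 f J θ z1 z) '' univ) :=
      isCompact_univ.continuous_sInf (m1_cont hf hE h.θc)
    have h2 : (fun z : ℝ × ℝ => sInf ((fun z1 : K1 => mem1 f J θ z1 z) '' univ)) =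
        fun z => sInf ((fun z1 => mem1 f J θ z1 z) '' K1) := by
      funext z
      congr 1
      ext x
      constructor
      · rintro ⟨z1, _, rfl⟩
        exact ⟨z1, z1.2, rfl⟩
      · rintro ⟨z1, h1, rfl⟩
        exact ⟨⟨z1, h1⟩, mem_univ _, rfl⟩
    rwa [h2] at h1
  have c2 : Continuous fun z => sInf ((fun z0 => mem2 ft η M' z0 z) '' K') :=
    hK'.continuous_sInf (m2_cont hft η M')
  have c3 := m3_cont C
  rcases K1.eq_empty_or_nonempty with h1 | h1
  · rcases K'.eq_empty_or_nonempty with h2 | h2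
    · have : FF f ft K1 K' J θ η M' C = fun z => mem3 C z := by
        funext z
        unfold FF
        rw [h1, h2, image_empty, image_empty, empty_union, empty_union, csInf_singleton]
      rw [this]
      exact c3
    · have : FF f ft K1 K' J θ η M' C =
          fun z => sInf ((fun z0 => mem2 ft η M' z0 z) '' K') ⊓ mem3 C z := by
        funext z
        unfold FF
        rw [h1, image_empty, empty_union, csInf_union (im2_compact hft hK' η M' z).bddBelow
          (h2.image _) (bddBelow_singleton) (singleton_nonempty _), csInf_singleton]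
      rw [this]
      exact c2.inf c3
  · rcases K'.eq_empty_or_nonempty with h2 | h2
    · have : FF f ft K1 K' J θ η M' C =
          fun z => sInf ((fun z1 => mem1 f J θ z1 z) '' K1) ⊓ mem3 C z := by
        funext z
        unfold FF
        rw [h2, image_empty, union_empty, csInf_union (im1_compact hf hK1 hE h.θc z).bddBelow
          (h1.image _) (bddBelow_singleton) (singleton_nonempty _), csInf_singleton]
      rw [this]
      exact c1.inf c3
    · have : FF f ft K1 K' J θ η M' C =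
          fun z => (sInf ((fun z1 => mem1 f J θ z1 z) '' K1) ⊓
            sInf ((fun z0 => mem2 ft η M' z0 z) '' K')) ⊓ mem3 C z := by
        funext z
        unfold FF
        have hb1 := (im1_compact hf hK1 hE h.θc z).bddBelow
        have hb2 := (im2_compact hft hK' η M' z).bddBelow
        rw [csInf_union (hb1.union hb2) ((h1.image _).inl) (bddBelow_singleton)
          (singleton_nonempty _), csInf_union hb1 (h1.image _) hb2 (h2.image _), csInf_singleton]
      rw [this]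
      exact (c1.inf c2).inf c3

theorem ff_D2 (f : ℝ × ℝ → ℝ) (hf : ConvexOn ℝ univ f)
    (K1 : Set (ℝ × ℝ)) (hK1 : IsCompact K1) (J : Jets) (hE : Exp2 f K1 J)
    (ft : ℝ × ℝ → ℝ) (hft : ConvexOn ℝ univ ft) (hle : ∀ z, ft z ≤ f z)
    (K' : Set (ℝ × ℝ)) (hK' : IsCompact K') (θ : ℝ × ℝ → ℝ) (η M' C M : ℝ)
    (h : MemF f ft K1 K' J θ η M' C M) (v z : ℝ × ℝ) :
    D2 (FF f ft K1 K' J θ η M' C) v z ≤ M * sq v := by
  have hsv : 0 ≤ sq v := by
    unfold sq
    positivity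
  obtain ⟨p1, p2, p3, _⟩ := ff_le f hf K1 hK1 J hE ft hft hle K' hK' θ η M' C M h (z + v)
  obtain ⟨q1, q2, q3, _⟩ := ff_le f hf K1 hK1 J hE ft hft hle K' hK' θ η M' C M h (z - v)
  rcases ff_attained f hf K1 hK1 J hE ft hft hle K' hK' θ η M' C M h z with
    ⟨z1, h1, h2⟩ | ⟨z0, h1, h2⟩ | h2
  · have h3 := h.b1 z1 h1 v z
    unfold D2 at h3 ⊢
    have h4 := p1 z1 h1
    have h5 := q1 z1 h1
    rw [h2]
    linarith
  · have h4 := p2 z0 h1
    have h5 := q2 z0 h1
    have h6 : mem2 ft η M' z0 (z + v) + mem2 ft η M' z0 (z - v) - 2 * mem2 ft η M' z0 z =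
        M' * sq v := by
      simp only [mem2, sq, Prod.fst_sub, Prod.snd_sub, Prod.fst_add, Prod.snd_add]
      ring
    have h7 := mul_le_mul_of_nonneg_right h.b2 hsv
    unfold D2
    rw [h2]
    linarith
  · have h6 : mem3 C (z + v) + mem3 C (z - v) - 2 * mem3 C z = 2 * C * sq v := by
      simp only [mem3, sq, Prod.fst_sub, Prod.snd_sub, Prod.fst_add, Prod.snd_add]
      ring
    have h7 := mul_le_mul_of_nonneg_right h.b3 hsv
    unfold D2
    rw [h2]
    linarith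

end Pool.Agent.MP_4eca41
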