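import Pool.Agent.Work.MP_4eca41_an.L.Leg2

/-!
# Definitions of block D1 (FIXED)
-/

set_option autoImplicit false

open Set MeasureTheory

namespace Pool.Agent.MP_4eca41

/-- Member of the first family: second order Taylor polynomial at `z1` plus `θ`. -/
noncomputable def mem1 (f : ℝ × ℝ → ℝ) (J : Jets) (θ : ℝ × ℝ → ℝ) (z1 z : ℝ × ℝ) : ℝ :=
  f z1 + J.q z1 (z - z1) + θ (z - z1)

/-- Member of the second family. -/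
noncomputable def mem2 (ft : ℝ × ℝ → ℝ) (η M' : ℝ) (z0 z : ℝ × ℝ) : ℝ :=
  ft z0 + η + M' / 2 * sq (z - z0)

/-- The third member. -/
noncomputable def mem3 (C : ℝ) (z : ℝ × ℝ) : ℝ := C * (1 + sq z) + 1

/-- Properties of the families (`ft = PU W0`). -/
structure MemF (f ft : ℝ × ℝ → ℝ) (K1 K' : Set (ℝ × ℝ)) (J : Jets) (θ : ℝ × ℝ → ℝ)
    (η M' C M : ℝ) : Prop where
  θc : Continuous θ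
  θ0 : θ 0 = 0
  θnn : ∀ v, 0 ≤ θ v
  θpos : ∀ r : ℝ, 0 < r → ∃ m : ℝ, 0 < m ∧ ∀ v, r ^ 2 ≤ sq v → m * sq v ≤ θ v
  θD : ∀ κ : ℝ, 0 < κ → ∃ δ : ℝ, 0 < δ ∧ ∀ v ζ, sq v ≤ δ ^ 2 → sq ζ ≤ δ ^ 2 → D2 θ v ζ ≤ κ * sq v
  θs : ∀ κ : ℝ, 0 < κ → ∃ δ : ℝ, 0 < δ ∧ ∀ v, sq v ≤ δ ^ 2 → θ v ≤ κ * sq v
  η0 : 0 < η
  C0 : 0 < C
  M0 : 0 < M
  m1 : ∀ z1 ∈ K1, ∀ z, f z + θ (z - z1) / 2 ≤ mem1 f J θ z1 z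
  m2 : ∀ z0 ∈ K', ∀ z, ft z + η / 2 ≤ mem2 ft η M' z0 z
  m2' : ∀ z0 ∈ K', ft z0 + 2 * η ≤ f z0
  m3 : ∀ z, f z + 1 ≤ mem3 C z
  b1 : ∀ z1 ∈ K1, ∀ v z, D2 (mem1 f J θ z1) v z ≤ M * sq v
  b2 : M' ≤ M
  b3 : 2 * C ≤ M

/-- The minimum of the three families. -/
noncomputable def FF (f ft : ℝ × ℝ → ℝ) (K1 K' : Set (ℝ × ℝ)) (J : Jets) (θ : ℝ × ℝ → ℝ)
    (η M' C : ℝ) (z : ℝ × ℝ) : ℝ :=
  sInf ((fun z1 => mem1 f J θ z1 z) '' K1 ∪ (fun z0 => mem2 ft η M' z0 z) '' K' ∪ {mem3 C z})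

end Pool.Agent.MP_4eca41
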