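import Pool.Agent.Work.MP_4eca41_an.Defs

/-!
# D2A1: smooth approximation and cut-off functions with bounded second differences (pure analysis)

PROOFS.  `approx_D2`: let `τ u = max (1 - |u|) 0` (tent, integral 1) and `a z = ∫∫ A (z.1 + σ s, z.2 + σ t) τ s τ t ds dt` with `σ > 0` small (uniform continuity: `|a - A| ≤ κ`).
`a z = ∫∫ A (u, v) σ^(-2) τ((u - z.1)/σ) τ((v-z.2)/σ)`: `|A| ≤ B`, and the second differences of the kernel `(x,y) ↦ τ((u-x)/σ) τ((v-y)/σ)` are NOT bounded by `C|v|^2` (kinks), so use the C^2 kernel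
`ker` instead of the tent: `a z = ∫∫ A (u,v) σ^(-2) ker((u - z.1)/σ) ker((v - z.2)/σ)`, second derivatives of the kernel bounded by `C σ^(-4)`, supported on the square of side `2σ`:
`|D2 a v z| ≤ C B σ^(-2) sq v` for all `v` (Taylor along the segment).  Alternatively convolve with a `ContDiffBump` (Mathlib: `ContDiffBump.convolution...`, smooth with bounded second derivative).
`cutoff_D2`: universal constant `C1`.  Apply a mollification at scale `r/8` (Euclidean ball or sup norm, both fine) to the indicator of `{z | 3 r/4 ≤ infDist z S}`: value `0` on `infDist ≤ r/2`, `1` on `infDist ≥ r`, second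
derivatives of the kernel at scale `r/8` integrate to `≤ C1 r^(-2)`.  (`T/Rad` and `T/Ind` by helper49 contain such functions: `T.Ind` may be used.)  If `S` is empty take `ψ = 1`... (`infDist z ∅ = 0`), so `S` is assumed nonempty.
`extension`: a continuous function on a compact set `S` with values in `[-C, -c]` extends to a continuous function on the plane with values in `[-C, -c]`, constant outside a bounded set, hence uniformly
continuous (Tietze `ContinuousMap.exists_extension...`, multiply with a compactly supported cut-off after subtracting `-C`; truncate with `max`/`min`).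
-/

set_option autoImplicit false

open Set MeasureTheory

namespace Pool.Agent.MP_4eca41

/-- the kernel -/
private theorem d2a1_kernel : ∃ (φ : ℝ × ℝ → ℝ) (N : ℝ), Continuous φ ∧ (∀ s, 0 ≤ φ s) ∧
    (∀ s, 1 ≤ ‖s‖ → φ s = 0) ∧ ∫ s, φ s = 1 ∧ 0 ≤ N ∧
    ∀ w s, |D2 φ w s| ≤ N * ‖w‖ ^ 2 := by
  set f : ContDiffBump (0 : ℝ × ℝ) := ⟨1 / 2, 1, by norm_num, by norm_num⟩ with hf
  set φ : ℝ × ℝ → ℝ := f.normed volume with hφ
  have hsm : ContDiff ℝ 2 φ := by
    have h := f.contDiff_normed (μ := (volume : Measure (ℝ × ℝ))) (n := 2)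
    exact_mod_cast h
  have hcs : HasCompactSupport φ := f.hasCompactSupport_normed
  have hd : ContDiff ℝ 1 (fderiv ℝ φ) := by
    exact hsm.fderiv_right (by norm_num)
  obtain ⟨M, hM⟩ := ContDiff.lipschitzWith_of_hasCompactSupport (hcs.fderiv ℝ) hd one_ne_zero
  refine ⟨φ, 2 * M, f.continuous_normed, fun s => f.nonneg_normed s, fun s hs => ?_,
    f.integral_normed, by positivity, fun w s => ?_⟩
  · have h1 : s ∉ Function.support φ := by
      rw [hφ, f.support_normed_eq]
      intro h
      rw [Metric.mem_ball, dist_zero_right] at h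
      exact absurd h (not_lt.mpr hs)
    exact Function.notMem_support.mp h1
  · have hdiff : Differentiable ℝ φ := hsm.differentiable (by norm_num)
    have key : ∀ v : ℝ × ℝ, |φ (s + v) - φ s - fderiv ℝ φ s v| ≤ M * ‖v‖ ^ 2 := by
      intro v
      have h1 := (convex_closedBall s ‖v‖).norm_image_sub_le_of_norm_fderiv_le' (𝕜 := ℝ)
        (f := φ) (C := M * ‖v‖) (φ := fderiv ℝ φ s) (x := s) (y := s + v)
        (fun x _ => hdiff x) (fun x hx => ?_) (Metric.mem_closedBall_self (norm_nonneg v))
        (by rw [Metric.mem_closedBall, dist_self_add_left])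
      · rw [add_sub_cancel_left, Real.norm_eq_abs] at h1
        refine h1.trans (le_of_eq ?_)
        ring
      · have h2 := hM.dist_le_mul x s
        rw [dist_eq_norm] at h2
        refine h2.trans ?_
        exact mul_le_mul_of_nonneg_left (Metric.mem_closedBall.mp hx) M.2
    have h1 := key w
    have h2 := key (-w)
    rw [norm_neg, map_neg, ← sub_eq_add_neg] at h2
    have h3 : D2 φ w s = (φ (s + w) - φ s - fderiv ℝ φ s w) +
        (φ (s - w) - φ s - -fderiv ℝ φ s w) := by
      unfold D2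
      ring
    rw [h3]
    refine (abs_add_le _ _).trans ?_
    linarith

private theorem d2a1_cs {φ g : ℝ × ℝ → ℝ} (hφ : Continuous φ)
    (hs : ∀ s, 1 ≤ ‖s‖ → φ s = 0) (hg : Continuous g) (w : ℝ × ℝ) :
    Integrable fun s => φ (s + w) * g s := by
  refine Continuous.integrable_of_hasCompactSupport
    ((hφ.comp (continuous_id.add continuous_const)).mul hg) ?_
  refine HasCompactSupport.intro (isCompact_closedBall (-w) 1) fun s hs' => ?_
  rw [Metric.mem_closedBall, dist_eq_norm, sub_neg_eq_add, not_le] at hs'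
  simp only [hs _ hs'.le, zero_mul]

/-- smoothing of a bounded continuous function -/
private theorem d2a1_smooth : ∃ C : ℝ, 0 < C ∧ ∀ (g : ℝ × ℝ → ℝ) (B ρ : ℝ), Continuous g →
    (∀ z, |g z| ≤ B) → 0 < ρ → ∃ (φ : ℝ × ℝ → ℝ) (a : ℝ × ℝ → ℝ), Continuous φ ∧
      (∀ s, 0 ≤ φ s) ∧ (∀ s, 1 ≤ ‖s‖ → φ s = 0) ∧ ∫ s, φ s = 1 ∧
      (∀ z, a z = ∫ s, φ s * g (z - ρ • s)) ∧ Continuous a ∧
      ∀ v z, |D2 a v z| ≤ C * B / ρ ^ 2 * sq v := by
  obtain ⟨φ, N, hφc, hφ0, hφs, hφi, hN, hD⟩ := d2a1_kernel
  set V : ℝ := (volume : Measure (ℝ × ℝ)).real (Metric.closedBall 0 2) with hV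
  have hV0 : 0 ≤ V := measureReal_nonneg
  refine ⟨N * V + 4, by positivity, fun g B ρ hg hB hρ => ?_⟩
  have hB0 : 0 ≤ B := (abs_nonneg _).trans (hB 0)
  set a : ℝ × ℝ → ℝ := fun z => ∫ s, φ s * g (z - ρ • s) with ha
  have hgz : ∀ z : ℝ × ℝ, Continuous fun s : ℝ × ℝ => g (z - ρ • s) := fun z =>
    hg.comp (continuous_const.sub (continuous_const_smul _))
  have hint : ∀ (w z : ℝ × ℝ), Integrable fun s => φ (s + w) * g (z - ρ • s) := fun w z =>
    d2a1_cs hφc hφs (hgz z) w
  have hφint : Integrable φ := by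
    have h := d2a1_cs hφc hφs (continuous_const (y := (1 : ℝ))) 0
    simpa using h
  have hab : ∀ z, |a z| ≤ B := by
    intro z
    have h1 : |a z| ≤ ∫ s, φ s * B := by
      rw [← Real.norm_eq_abs]
      refine norm_integral_le_of_norm_le (hφint.mul_const B) (Filter.Eventually.of_forall fun s => ?_)
      rw [Real.norm_eq_abs, abs_mul, abs_of_nonneg (hφ0 s)]
      exact mul_le_mul_of_nonneg_left (hB _) (hφ0 s)
    rwa [integral_mul_const, hφi, one_mul] at h1
  refine ⟨φ, a, hφc, hφ0, hφs, hφi, fun z => rfl, ?_, fun v z => ?_⟩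
  · refine continuous_of_dominated (bound := fun s => φ s * B)
      (fun z => ?_) (fun z => Filter.Eventually.of_forall fun s => ?_) (hφint.mul_const B)
      (Filter.Eventually.of_forall fun s => ?_)
    · have h := hint 0 z
      simp only [add_zero] at h
      exact h.aestronglyMeasurable
    · rw [Real.norm_eq_abs, abs_mul, abs_of_nonneg (hφ0 s)]
      exact mul_le_mul_of_nonneg_left (hB _) (hφ0 s)
    · exact continuous_const.mul (hg.comp (continuous_id.sub continuous_const))
  · set w : ℝ × ℝ := ρ⁻¹ • v with hw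
    have hρw : ρ • w = v := by
      rw [hw, smul_smul, mul_inv_cancel₀ hρ.ne', one_smul]
    have hwn : ‖w‖ ^ 2 ≤ sq v / ρ ^ 2 := by
      have h1 : ‖w‖ = ‖v‖ / ρ := by
        rw [hw, norm_smul, norm_inv, Real.norm_eq_abs, abs_of_pos hρ]
        field_simp
      have h2 : ‖v‖ ^ 2 ≤ sq v := by
        unfold sq
        rw [Prod.norm_def]
        rcases max_choice ‖v.1‖ ‖v.2‖ with h | h <;> rw [h, Real.norm_eq_abs, sq_abs] <;> nlinarith [sq_nonneg v.1, sq_nonneg v.2]
      rw [h1, div_pow]
      gcongr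
    have hsh : ∀ u : ℝ × ℝ, a (z + ρ • u) = ∫ s, φ (s + u) * g (z - ρ • s) := by
      intro u
      have h1 := integral_add_right_eq_self (μ := (volume : Measure (ℝ × ℝ)))
        (fun s => φ s * g (z + ρ • u - ρ • s)) u
      show ∫ s, φ s * g (z + ρ • u - ρ • s) = _
      rw [← h1]
      congr 1
      funext s
      congr 2
      rw [smul_add]
      abel
    have h0 : a z = ∫ s, φ (s + 0) * g (z - ρ • s) := by
      have h := hsh 0
      rwa [smul_zero, add_zero] at h
    have h1 : a (z + v) = ∫ s, φ (s + w) * g (z - ρ • s) := by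
      rw [← hρw]
      exact hsh w
    have h2 : a (z - v) = ∫ s, φ (s + -w) * g (z - ρ • s) := by
      have h := hsh (-w)
      rwa [smul_neg, hρw, ← sub_eq_add_neg] at h
    have h3 : D2 a v z = ∫ s, D2 φ w s * g (z - ρ • s) := by
      have e1 : ∀ s, D2 φ w s * g (z - ρ • s) = φ (s + w) * g (z - ρ • s) +
          φ (s + -w) * g (z - ρ • s) - 2 * (φ (s + 0) * g (z - ρ • s)) := by
        intro s
        unfold D2
        rw [add_zero, ← sub_eq_add_neg]
        ring
      simp only [e1]
      rw [integral_sub (f := fun s => φ (s + w) * g (z - ρ • s) + φ (s + -w) * g (z - ρ • s))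
        (g := fun s => 2 * (φ (s + 0) * g (z - ρ • s)))
        ((hint w z).add (hint (-w) z)) ((hint 0 z).const_mul 2),
        integral_add (hint w z) (hint (-w) z), integral_const_mul, ← h0, ← h1, ← h2]
      rfl
    have hfin : |D2 a v z| ≤ (N * V + 4) * B * ‖w‖ ^ 2 := by
      rcases le_total ‖w‖ 1 with hw1 | hw1
      · have h4 : |∫ s, D2 φ w s * g (z - ρ • s)| ≤
            ∫ s, (Metric.closedBall (0 : ℝ × ℝ) 2).indicator (fun _ => N * ‖w‖ ^ 2 * B) s := by
          rw [← Real.norm_eq_abs]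
          refine norm_integral_le_of_norm_le ?_ (Filter.Eventually.of_forall fun s => ?_)
          · rw [integrable_indicator_iff Metric.isClosed_closedBall.measurableSet]
            exact integrableOn_const (isCompact_closedBall _ _).measure_lt_top.ne
          · by_cases hs : s ∈ Metric.closedBall (0 : ℝ × ℝ) 2
            · rw [Set.indicator_of_mem hs, Real.norm_eq_abs, abs_mul]
              exact mul_le_mul (hD w s) (hB _) (abs_nonneg _) (by positivity)
            · rw [Set.indicator_of_notMem hs]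
              rw [Metric.mem_closedBall, dist_zero_right, not_le] at hs
              have e0 : φ s = 0 := hφs s (by linarith)
              have e1 : φ (s + w) = 0 := by
                apply hφs
                have := norm_sub_norm_le s (-w)
                rw [norm_neg, sub_neg_eq_add] at this
                linarith
              have e2 : φ (s - w) = 0 := by
                apply hφs
                have := norm_sub_norm_le s w
                linarith
              unfold D2
              rw [e0, e1, e2]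
              simp
        rw [integral_indicator Metric.isClosed_closedBall.measurableSet, setIntegral_const,
          smul_eq_mul, ← h3] at h4
        refine h4.trans ?_
        have h5 : 0 ≤ B * ‖w‖ ^ 2 := by positivity
        show V * (N * ‖w‖ ^ 2 * B) ≤ _
        nlinarith
      · have h4 : |D2 a v z| ≤ 4 * B := by
          have b1 := abs_le.mp (hab (z + v))
          have b2 := abs_le.mp (hab (z - v))
          have b3 := abs_le.mp (hab z)
          unfold D2
          rw [abs_le]
          constructor <;> linarith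
        have h5 : 1 ≤ ‖w‖ ^ 2 := by nlinarith
        have h6 : 0 ≤ N * V * B * ‖w‖ ^ 2 := by positivity
        nlinarith
    refine hfin.trans ?_
    have h7 : 0 ≤ (N * V + 4) * B := by positivity
    calc (N * V + 4) * B * ‖w‖ ^ 2 ≤ (N * V + 4) * B * (sq v / ρ ^ 2) :=
          mul_le_mul_of_nonneg_left hwn h7
      _ = (N * V + 4) * B / ρ ^ 2 * sq v := by ring

theorem approx_D2 (A : ℝ × ℝ → ℝ) (hA : UniformContinuous A) (B : ℝ) (hB : ∀ z, |A z| ≤ B) (κ : ℝ)
    (hκ : 0 < κ) : ∃ (a : ℝ × ℝ → ℝ) (N : ℝ), Continuous a ∧ (∀ z, |a z - A z| ≤ κ) ∧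
      ∀ v z, |D2 a v z| ≤ N * sq v := by
  obtain ⟨C, hC, hsm⟩ := d2a1_smooth
  obtain ⟨δ, hδ, hu⟩ := Metric.uniformContinuous_iff.mp hA κ hκ
  have hρ : 0 < δ / 2 := by positivity
  obtain ⟨φ, a, hφc, hφ0, hφs, hφi, ha, hac, hD⟩ := hsm A B (δ / 2) hA.continuous hB hρ
  refine ⟨a, C * B / (δ / 2) ^ 2, hac, fun z => ?_, hD⟩
  have hφint : Integrable φ := by
    have h := d2a1_cs hφc hφs (continuous_const (y := (1 : ℝ))) 0
    simpa using h
  have hgz : Continuous fun s : ℝ × ℝ => A (z - (δ / 2) • s) :=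
    hA.continuous.comp (continuous_const.sub (continuous_const_smul _))
  have hint : Integrable fun s => φ s * A (z - (δ / 2) • s) := by
    have h := d2a1_cs hφc hφs hgz 0
    simpa using h
  have h1 : a z - A z = ∫ s, φ s * (A (z - (δ / 2) • s) - A z) := by
    have e1 : ∀ s, φ s * (A (z - (δ / 2) • s) - A z) =
        φ s * A (z - (δ / 2) • s) - φ s * A z := fun s => by ring
    simp only [e1]
    rw [integral_sub hint (hφint.mul_const (A z)), integral_mul_const, hφi, one_mul, ha z]
  rw [h1]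
  have h2 : |∫ s, φ s * (A (z - (δ / 2) • s) - A z)| ≤ ∫ s, φ s * κ := by
    rw [← Real.norm_eq_abs]
    refine norm_integral_le_of_norm_le (hφint.mul_const κ) (Filter.Eventually.of_forall fun s => ?_)
    rw [Real.norm_eq_abs, abs_mul, abs_of_nonneg (hφ0 s)]
    by_cases hs : 1 ≤ ‖s‖
    · rw [hφs s hs, zero_mul, zero_mul]
    · refine mul_le_mul_of_nonneg_left ?_ (hφ0 s)
      have h3 : dist (z - (δ / 2) • s) z < δ := by
        rw [dist_eq_norm, sub_sub_cancel_left, norm_neg, norm_smul, Real.norm_eq_abs,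
          abs_of_pos hρ]
        have h4 : ‖s‖ < 1 := not_le.mp hs
        nlinarith [norm_nonneg s]
      have h5 := hu h3
      rw [Real.dist_eq] at h5
      exact h5.le
  rwa [integral_mul_const, hφi, one_mul] at h2

theorem cutoff_D2 : ∃ C1 : ℝ, 0 < C1 ∧ ∀ (S : Set (ℝ × ℝ)) (r : ℝ), IsCompact S → S.Nonempty → 0 < r →
    ∃ ψ : ℝ × ℝ → ℝ, Continuous ψ ∧ (∀ z, 0 ≤ ψ z ∧ ψ z ≤ 1) ∧
      (∀ z, Metric.infDist z S ≤ r / 2 → ψ z = 0) ∧ (∀ z, r ≤ Metric.infDist z S → ψ z = 1) ∧
      ∀ v z, |D2 ψ v z| ≤ C1 / r ^ 2 * sq v := by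
  obtain ⟨C, hC, hsm⟩ := d2a1_smooth
  refine ⟨64 * C, by positivity, fun S r _ _ hr => ?_⟩
  set g : ℝ × ℝ → ℝ := fun z => max 0 (min 1 (4 * Metric.infDist z S / r - 5 / 2)) with hg
  have hgc : Continuous g := by
    refine continuous_const.max (continuous_const.min ?_)
    exact ((continuous_const.mul (Metric.continuous_infDist_pt S)).div_const r).sub
      continuous_const
  have hg0 : ∀ z, 0 ≤ g z := fun z => le_max_left _ _
  have hg1 : ∀ z, g z ≤ 1 := fun z => max_le zero_le_one (min_le_left _ _)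
  have hgb : ∀ z, |g z| ≤ 1 := fun z => by
    rw [abs_of_nonneg (hg0 z)]
    exact hg1 z
  have hρ : 0 < r / 8 := by positivity
  obtain ⟨φ, a, hφc, hφ0, hφs, hφi, ha, hac, hD⟩ := hsm g 1 (r / 8) hgc hgb hρ
  have hφint : Integrable φ := by
    have h := d2a1_cs hφc hφs (continuous_const (y := (1 : ℝ))) 0
    simpa using h
  have hint : ∀ z, Integrable fun s => φ s * g (z - (r / 8) • s) := fun z => by
    have hgz : Continuous fun s : ℝ × ℝ => g (z - (r / 8) • s) :=
      hgc.comp (continuous_const.sub (continuous_const_smul _))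
    have h := d2a1_cs hφc hφs hgz 0
    simpa using h
  have hdist : ∀ z s : ℝ × ℝ, ‖s‖ < 1 →
      |Metric.infDist (z - (r / 8) • s) S - Metric.infDist z S| ≤ r / 8 := by
    intro z s hs
    have h1 := (Metric.lipschitz_infDist_pt S).dist_le_mul (z - (r / 8) • s) z
    rw [Real.dist_eq, dist_eq_norm, sub_sub_cancel_left, norm_neg, norm_smul,
      Real.norm_eq_abs, abs_of_pos hρ] at h1
    refine h1.trans ?_
    rw [NNReal.coe_one, one_mul]
    nlinarith [norm_nonneg s]
  refine ⟨a, hac, fun z => ⟨?_, ?_⟩, fun z hz => ?_, fun z hz => ?_, fun v z => ?_⟩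
  · rw [ha]
    exact integral_nonneg fun s => mul_nonneg (hφ0 s) (hg0 _)
  · rw [ha, ← hφi]
    refine integral_mono (hint z) hφint fun s => ?_
    exact mul_le_of_le_one_right (hφ0 s) (hg1 _)
  · rw [ha]
    have h1 : ∀ s, φ s * g (z - (r / 8) • s) = 0 := by
      intro s
      by_cases hs : 1 ≤ ‖s‖
      · rw [hφs s hs, zero_mul]
      · have h2 := abs_le.mp (hdist z s (not_le.mp hs))
        have h3 : 4 * Metric.infDist (z - (r / 8) • s) S / r - 5 / 2 ≤ 0 := by
          rw [sub_nonpos, div_le_iff₀ hr]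
          linarith [h2.2]
        have h4 : g (z - (r / 8) • s) = 0 := by
          show max 0 (min 1 (4 * Metric.infDist (z - (r / 8) • s) S / r - 5 / 2)) = 0
          exact max_eq_left ((min_le_right _ _).trans h3)
        rw [h4, mul_zero]
    simp only [h1, integral_zero]
  · rw [ha]
    have h1 : ∀ s, φ s * g (z - (r / 8) • s) = φ s := by
      intro s
      by_cases hs : 1 ≤ ‖s‖
      · rw [hφs s hs, zero_mul]
      · have h2 := abs_le.mp (hdist z s (not_le.mp hs))
        have h3 : 1 ≤ 4 * Metric.infDist (z - (r / 8) • s) S / r - 5 / 2 := by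
          rw [le_sub_iff_add_le, le_div_iff₀ hr]
          linarith [h2.1]
        have h4 : g (z - (r / 8) • s) = 1 := by
          show max 0 (min 1 (4 * Metric.infDist (z - (r / 8) • s) S / r - 5 / 2)) = 1
          rw [min_eq_left h3]
          exact max_eq_right zero_le_one
        rw [h4, mul_one]
    simp only [h1, hφi]
  · refine (hD v z).trans (le_of_eq ?_)
    field_simp
    ring

theorem extension (S : Set (ℝ × ℝ)) (hS : IsCompact S) (A : ℝ × ℝ → ℝ) (hA : ContinuousOn A S)
    (C c : ℝ) (hb : ∀ y ∈ S, -C ≤ A y ∧ A y ≤ -c) (hc : -C ≤ -c) :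
    ∃ Ab : ℝ × ℝ → ℝ, UniformContinuous Ab ∧ (∀ y ∈ S, Ab y = A y) ∧ ∀ y, -C ≤ Ab y ∧ Ab y ≤ -c := by
  have hcl : IsClosed S := hS.isClosed
  have hres : Continuous (S.domRestrict A) := continuousOn_iff_continuous_domRestrict.mp hA
  obtain ⟨g, hg, hgS⟩ := ContinuousMap.exists_restrict_eq_forall_mem_of_closed
    (⟨S.domRestrict A, hres⟩ : C(S, ℝ)) (t := Icc (-C) (-c))
    (fun x => ⟨(hb x.1 x.2).1, (hb x.1 x.2).2⟩) ⟨-C, le_rfl, hc⟩ hcl
  obtain ⟨R, hR⟩ := hS.isBounded.subset_closedBall (0 : ℝ × ℝ)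
  set π : ℝ × ℝ → ℝ × ℝ := fun z => (max (-|R|) (min z.1 |R|), max (-|R|) (min z.2 |R|)) with hπ
  have hπu : UniformContinuous π := by
    refine UniformContinuous.prodMk ?_ ?_
    · exact ((LipschitzWith.prod_fst (α := ℝ) (β := ℝ)).min_const |R|).const_max (-|R|)
        |>.uniformContinuous
    · exact ((LipschitzWith.prod_snd (α := ℝ) (β := ℝ)).min_const |R|).const_max (-|R|)
        |>.uniformContinuous
  have hR0 := abs_nonneg R
  have hπm : ∀ z, π z ∈ Metric.closedBall (0 : ℝ × ℝ) |R| := by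
    intro z
    rw [Metric.mem_closedBall, dist_zero_right, Prod.norm_def]
    have h1 : ∀ t : ℝ, |max (-|R|) (min t |R|)| ≤ |R| := by
      intro t
      rw [abs_le]
      exact ⟨le_max_left _ _, max_le (by linarith) (min_le_right _ _)⟩
    exact max_le (h1 z.1) (h1 z.2)
  have hπS : ∀ y ∈ S, π y = y := by
    intro y hy
    have h1 := hR hy
    rw [Metric.mem_closedBall, dist_zero_right, Prod.norm_def] at h1
    have h2 : |y.1| ≤ |R| := (le_max_left _ _).trans (h1.trans (le_abs_self R))
    have h3 : |y.2| ≤ |R| := (le_max_right _ _).trans (h1.trans (le_abs_self R))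
    have h4 : ∀ t : ℝ, |t| ≤ |R| → max (-|R|) (min t |R|) = t := by
      intro t ht
      obtain ⟨h5, h6⟩ := abs_le.mp ht
      rw [min_eq_left h6, max_eq_right h5]
    exact Prod.ext (h4 _ h2) (h4 _ h3)
  refine ⟨fun z => g (π z), ?_, fun y hy => ?_, fun y => hg _⟩
  · have h1 : UniformContinuousOn g (Metric.closedBall (0 : ℝ × ℝ) |R|) :=
      (isCompact_closedBall _ _).uniformContinuousOn_of_continuous g.continuous.continuousOn
    rw [Metric.uniformContinuous_iff]
    intro ε hε
    obtain ⟨δ, hδ, h2⟩ := Metric.uniformContinuousOn_iff.mp h1 ε hε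
    obtain ⟨δ', hδ', h3⟩ := Metric.uniformContinuous_iff.mp hπu δ hδ
    exact ⟨δ', hδ', fun _ _ hab => h2 _ (hπm _) _ (hπm _) (h3 hab)⟩
  · show g (π y) = A y
    rw [hπS y hy]
    have h1 := congrArg (fun h : C(S, ℝ) => h ⟨y, hy⟩) hgS
    exact h1

end Pool.Agent.MP_4eca41
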