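import Pool.Agent.Work.MP_4eca41_an.D.D2Defs
import Pool.Agent.Work.MP_4eca41_an.D.D2A1

/-!
# D2A: construction of `β`  (paper D2, first part)

PROOF.  `S` empty: `β = -C'` constant, where `D2 W0 (h,0) z ≥ -C' h^2` (`h0.sc`, wlog `C' ≥ 1`), `c = 0`, `s = 1`: first alternative everywhere.  Let `S` be nonempty, `d z = Metric.infDist z S` (sup norm; `d z^2 ≤ sq (z - y)` for
`y ∈ S`, and there is `y ∈ S` with `sq (z - y) ≤ 2 (d z)^2`).
Constants: `C'` with `D2 W0 (h,0) z ≥ -C' h^2`, `C' ≥ 1`, `-C' ≤ J.a ≤ -c0` on `S` (compact), `0 < c0 ≤ 1`.  `Ab` from `extension`.  `κ k = 2^(-k)`.  `a k` with `|a k - (Ab - (5/2) κ k)| ≤ κ k/2` and `|D2 (a k) v z| ≤ N' k sq v` (`approx_D2`).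
`gam r = sup {(Φ z - W0 z) : d z ≤ r}`: for every `ε` there is `r1` with `Φ z - W0 z ≤ ε (d z)^2` for `d z ≤ r1` (from `h1.up` and `h0.low` at a nearest point `y`, `sq (z - y) ≤ 2 (d z)^2`).  (*)
`δ' k > 0`: for `d z ≤ δ' k` (nearest point `y`): `PLB W0 z (Ab z - κ k)` (`h0.near` with `κ k/2` and `|Ab z - J.a y| ≤ κ k/2` by uniform continuity).  (**)
`P = C' + 2`, `C1` from `cutoff_D2`.  For `r > 0` let `ψ_r` be the cut-off, `N (k, r) = N' k + P C1/r^2`.  Choose `r : ℕ → ℝ` positive with `r (k+1) ≤ r k/2`, `r k ≤ min 1 (δ' k)`, and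
`Φ z - W0 z ≤ ε_k (d z)^2` for `d z ≤ r k`, where `ε_k` is chosen so that `(max_{j ≤ k} N' j + P C1) (2 ε_k)/κ k ≤ δ 2^(-k-1)` (depends only on `k`; so `r k = 2^(-k) min_{j ≤ k} (admissible radius of j)` works).
`N k = max_{j ≤ k} (N' j + P C1/(r j)^2) ≤ max_{j≤k} N' j + P C1/(r k)^2`, `c k = N k/κ k`, `s k = 2 ε_k (r k)^2`: `c k s k ≤ (max N' j + P C1) 2 ε_k/κ k ≤ δ 2^(-k-1)` as `r k ≤ 1`.  So `∑ c k s k ≤ δ`.
`b k = a k - P ψ_{r k}`.  `β z = max (-C' - 1) (⨆ k, b k z)` (bounded above by `-c0`: `a k ≤ Ab - 2 κ k ≤ -c0`).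
Facts.  (i) `b k z ≤ Ab z - 2 κ k`; if `d z ≥ r k` then `b k z ≤ -c0 - P < -C' - 1`: inactive.  If `d z ≤ r k/2`: `b k z = a k z ≥ Ab z - 3 κ k`.
(ii) `z ∈ S`: `β z = sup_k a k z = Ab z = J.a z` (`-C' - 1 < Ab z - 3κ k` for large `k`).  Continuity: at points with `d z > 0` locally finite maximum; at `z0 ∈ S`: for `d z ≤ r k/2`: `Ab z - 3 κ k ≤ β z ≤ Ab z` (note `-C' - 1 ≤ Ab z`).
(iii) `z ∉ S`.  If `d z > r 0`... let first `r 0 < d z`: all `b k z` inactive, `β z = -C' - 1` is the global minimum of `β`: `D2 β v z ≥ 0`, and `PLB W0 z (-C') ` gives `PLB W0 z (β z)`.  Otherwise let `k` be the largest index with `d z ≤ r k` (`r k → 0`), so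
`r (k+1) < d z ≤ r k`: `β z = max (-C' - 1) (max_{j ≤ k} b j z)`.  If `β z = -C' - 1` use the first alternative again (`β` is minimal at `z`).  Otherwise `β z = b j z` for some `j ≤ k`, `β (z ± v) ≥ b j (z ± v)`, so
`D2 β v z ≥ D2 (b j) v z ≥ -(N' j + P C1/(r j)^2) sq v ≥ -(c k κ k) sq v`.  `β z ≤ Ab z - 2 κ j ≤ Ab z - 2 κ k`, so by (**) (`d z ≤ r k ≤ δ' k`) `PLB W0 z (β z + κ k)`.  `Φ z - W0 z ≤ ε_k (r k)^2 < s k`.  Second alternative with `κ = κ k`.
`on`: (**) for all `k` at `z ∈ S`.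
-/

set_option autoImplicit false

open Set MeasureTheory

namespace Pool.Agent.MP_4eca41

private theorem d2a_seq (q : ℕ → ℝ) (hq : ∀ k, 0 < q k) :
    ∃ r : ℕ → ℝ, (∀ k, 0 < r k) ∧ (∀ k, r (k + 1) ≤ r k / 2) ∧ ∀ k, r k ≤ q k := by
  let r : ℕ → ℝ := fun k => Nat.rec (q 0) (fun k x => min (x / 2) (q (k + 1))) k
  have h0 : r 0 = q 0 := rfl
  have h1 : ∀ k, r (k + 1) = min (r k / 2) (q (k + 1)) := fun k => rfl
  refine ⟨r, ?_, ?_, ?_⟩
  · intro k
    induction k with
    | zero => rw [h0]; exact hq 0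
    | succ k ih => rw [h1]; exact lt_min (by linarith) (hq _)
  · intro k
    rw [h1]; exact min_le_left _ _
  · intro k
    cases k with
    | zero => rw [h0]
    | succ k => rw [h1]; exact min_le_right _ _

private theorem d2a_near (S : Set (ℝ × ℝ)) (hS : IsCompact S) (hne : S.Nonempty) (z : ℝ × ℝ) :
    ∃ y ∈ S, Metric.infDist z S = dist z y ∧ sq (z - y) ≤ 2 * (Metric.infDist z S) ^ 2 := by
  obtain ⟨y, hy, hd⟩ := hS.exists_infDist_eq_dist hne z
  refine ⟨y, hy, hd, ?_⟩
  rw [hd]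
  have h1 : |z.1 - y.1| ≤ dist z y := by
    rw [Prod.dist_eq, ← Real.dist_eq]; exact le_max_left _ _
  have h2 : |z.2 - y.2| ≤ dist z y := by
    rw [Prod.dist_eq, ← Real.dist_eq]; exact le_max_right _ _
  have h3 : (z.1 - y.1) ^ 2 ≤ (dist z y) ^ 2 := by
    rw [← sq_abs]; exact pow_le_pow_left₀ (abs_nonneg _) h1 2
  have h4 : (z.2 - y.2) ^ 2 ≤ (dist z y) ^ 2 := by
    rw [← sq_abs]; exact pow_le_pow_left₀ (abs_nonneg _) h2 2
  show (z - y).1 ^ 2 + (z - y).2 ^ 2 ≤ 2 * (dist z y) ^ 2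
  show (z.1 - y.1) ^ 2 + (z.2 - y.2) ^ 2 ≤ 2 * (dist z y) ^ 2
  linarith

private theorem d2a_plb_mono {q : ℝ × ℝ → ℝ} {z : ℝ × ℝ} {m m' : ℝ} (h : PLB q z m) (hm : m' ≤ m) :
    PLB q z m' := by
  intro ε hε
  obtain ⟨h0, hh0, h1⟩ := h ε hε
  refine ⟨h0, hh0, fun k ha hb => le_trans ?_ (h1 k ha hb)⟩
  exact mul_le_mul_of_nonneg_right (by linarith) (by positivity)

private theorem d2a_plb_sc {W0 : ℝ × ℝ → ℝ} {C : ℝ}
    (h : ∀ (y : ℝ × ℝ) (h : ℝ), -C * h ^ 2 ≤ D2 W0 (h, 0) y) (z : ℝ × ℝ) (m : ℝ) (hm : m ≤ -C) :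
    PLB W0 z m := by
  intro ε hε
  refine ⟨1, one_pos, fun k ha hb => le_trans ?_ (h z k)⟩
  exact mul_le_mul_of_nonneg_right (by linarith) (by positivity)

private theorem d2a_PLBnear (w W0 : ℝ × ℝ → ℝ) (S : Set (ℝ × ℝ)) (J : Jets) (hS : IsCompact S)
    (hne : S.Nonempty) (h0 : W0P w W0 S J) (Ab : ℝ × ℝ → ℝ) (hAu : UniformContinuous Ab)
    (hAe : ∀ y ∈ S, Ab y = J.a y) (κ : ℝ) (hκ : 0 < κ) :
    ∃ δ : ℝ, 0 < δ ∧ ∀ z, Metric.infDist z S ≤ δ → PLB W0 z (Ab z - κ) := by
  obtain ⟨δ1, hδ1, h1⟩ := h0.near (κ / 2) (by linarith)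
  obtain ⟨δ2, hδ2, h2⟩ := Metric.uniformContinuous_iff.1 hAu (κ / 2) (by linarith)
  refine ⟨min (δ1 / 2) (δ2 / 2), lt_min (by linarith) (by linarith), fun z hz => ?_⟩
  obtain ⟨y, hy, hd, hsq⟩ := d2a_near S hS hne z
  have hz1 : Metric.infDist z S ≤ δ1 / 2 := hz.trans (min_le_left _ _)
  have hz2 : Metric.infDist z S ≤ δ2 / 2 := hz.trans (min_le_right _ _)
  have hnn := Metric.infDist_nonneg (x := z) (s := S)
  have hcb : z ∈ cb y δ1 := by
    show sq (z - y) ≤ δ1 ^ 2
    nlinarith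
  have hA : |Ab z - Ab y| < κ / 2 := by
    have h3 : dist z y < δ2 := by rw [← hd]; linarith
    have := h2 h3
    rwa [Real.dist_eq] at this
  rw [hAe y hy] at hA
  have hA' := (abs_lt.1 hA).2
  intro ε hε
  refine ⟨δ1, hδ1, fun h ha hb => ?_⟩
  have h3 := h1 y hy z hcb h (by rw [abs_of_pos ha]; exact hb.le)
  refine le_trans ?_ h3
  exact mul_le_mul_of_nonneg_right (by linarith) (by positivity)

private theorem d2a_gap (w W0 Φ : ℝ × ℝ → ℝ) (S : Set (ℝ × ℝ)) (J : Jets) (hS : IsCompact S)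
    (hne : S.Nonempty) (h0 : W0P w W0 S J) (h1 : UB w W0 Φ S J) (ε : ℝ) (hε : 0 < ε) :
    ∃ ρ : ℝ, 0 < ρ ∧ ∀ z, Metric.infDist z S ≤ ρ →
      Φ z - W0 z ≤ ε * (Metric.infDist z S) ^ 2 := by
  obtain ⟨δ1, hδ1, h2⟩ := h1.up (ε / 4) (by linarith)
  obtain ⟨δ2, hδ2, h3⟩ := h0.low (ε / 4) (by linarith)
  refine ⟨min (δ1 / 2) (δ2 / 2), lt_min (by linarith) (by linarith), fun z hz => ?_⟩
  obtain ⟨y, hy, hd, hsq⟩ := d2a_near S hS hne z
  have hz1 : Metric.infDist z S ≤ δ1 / 2 := hz.trans (min_le_left _ _)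
  have hz2 : Metric.infDist z S ≤ δ2 / 2 := hz.trans (min_le_right _ _)
  have hnn := Metric.infDist_nonneg (x := z) (s := S)
  have a1 : sq (z - y) ≤ δ1 ^ 2 := by nlinarith
  have a2 : sq (z - y) ≤ δ2 ^ 2 := by nlinarith
  have b1 := h2 y hy (z - y) a1
  have b2 := h3 y hy (z - y) a2
  rw [add_sub_cancel] at b1 b2
  nlinarith

theorem exists_reg (w W0 Φ : ℝ × ℝ → ℝ) (S : Set (ℝ × ℝ)) (J : Jets) (hS : IsCompact S)
    (hJ : ContinuousOn J.a S) (hn : ∀ y ∈ S, J.a y < 0)
    (h0 : W0P w W0 S J) (h1 : UB w W0 Φ S J) (δ : ℝ) (hδ : 0 < δ) :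
    ∃ (β : ℝ × ℝ → ℝ) (c s : ℕ → ℝ), Reg W0 Φ β S J δ c s := by
  classical
  obtain ⟨Cs, hCs⟩ := h0.sc
  have hon : ∀ z ∈ S, PLB W0 z (J.a z) := by
    intro z hz ε hε
    obtain ⟨δ1, hδ1, h2⟩ := h0.near ε hε
    refine ⟨δ1, hδ1, fun h ha hb => h2 z hz z ?_ h (by rw [abs_of_pos ha]; exact hb.le)⟩
    show sq (z - z) ≤ δ1 ^ 2
    have : sq (z - z) = 0 := by simp [sq]
    rw [this]; positivity
  rcases S.eq_empty_or_nonempty with hSe | hne
  · have hM1 : (1 : ℝ) ≤ max 1 Cs := le_max_left _ _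
    have hM2 : Cs ≤ max 1 Cs := le_max_right _ _
    refine ⟨fun _ => -(max 1 Cs), fun _ => 0, fun _ => 1, ⟨continuous_const,
      ⟨max 1 Cs, 1, one_pos, fun y => ⟨le_refl _, neg_le_neg hM1⟩⟩, ?_, fun _ => le_refl _,
      fun _ => one_pos, ?_, ?_, hon, ?_⟩⟩
    · intro y hy
      rw [hSe] at hy
      exact absurd hy (Set.notMem_empty y)
    · simp
    · simpa using hδ.le
    · intro z _
      refine Or.inl ⟨fun v => ?_, d2a_plb_sc hCs z _ (neg_le_neg hM2)⟩
      show 0 ≤ -(max 1 Cs) + -(max 1 Cs) - 2 * -(max 1 Cs)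
      linarith
  · obtain ⟨y1, hy1, hmin⟩ := hS.exists_isMinOn hne hJ
    obtain ⟨y2, hy2, hmax⟩ := hS.exists_isMaxOn hne hJ
    have hmin' : ∀ y ∈ S, J.a y1 ≤ J.a y := fun y hy => hmin hy
    have hmax' : ∀ y ∈ S, J.a y ≤ J.a y2 := fun y hy => hmax hy
    obtain ⟨c0, hc0⟩ : ∃ c0 : ℝ, c0 = -(J.a y2) := ⟨_, rfl⟩
    have hc0p : 0 < c0 := by have := hn y2 hy2; linarith
    obtain ⟨C, hC1, hC2, hC3⟩ : ∃ C : ℝ, 1 ≤ C ∧ Cs ≤ C ∧ -(J.a y1) ≤ C :=
      ⟨max 1 (max Cs (-(J.a y1))), le_max_left _ _, (le_max_left _ _).trans (le_max_right _ _),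
        (le_max_right _ _).trans (le_max_right _ _)⟩
    have hcC : -C ≤ -c0 := by have := hmin' y2 hy2; linarith
    obtain ⟨Ab, hAu, hAe, hAb⟩ := extension S hS J.a hJ C c0
      (fun y hy => ⟨by linarith [hmin' y hy], by linarith [hmax' y hy]⟩) hcC
    have hAabs : ∀ z, |Ab z| ≤ C := fun z =>
      abs_le.2 ⟨(hAb z).1, by linarith [(hAb z).2]⟩
    obtain ⟨κ, hκd⟩ : ∃ κ : ℕ → ℝ, κ = fun k => (1 / 2 : ℝ) ^ k := ⟨_, rfl⟩
    have hκe : ∀ k, κ k = (1 / 2 : ℝ) ^ k := fun k => by rw [hκd]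
    have hκ : ∀ k, 0 < κ k := fun k => by rw [hκe]; positivity
    have hκm : ∀ j k, j ≤ k → κ k ≤ κ j := fun j k hjk => by
      rw [hκe, hκe]; exact pow_le_pow_of_le_one (by norm_num) (by norm_num) hjk
    choose a N hac haA haD using fun k => approx_D2 Ab hAu C hAabs (κ k / 2)
      (by have := hκ k; linarith)
    have hN : ∀ k, 0 ≤ N k := by
      intro k
      have h := haD k (1, 0) 0
      have h2 : sq ((1, 0) : ℝ × ℝ) = 1 := by simp [sq]
      rw [h2, mul_one] at h
      exact (abs_nonneg _).trans h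
    obtain ⟨C1, hC1p, hcut⟩ := cutoff_D2
    obtain ⟨P, hP⟩ : ∃ P : ℝ, P = C + 2 := ⟨_, rfl⟩
    have hPp : 0 < P := by rw [hP]; linarith
    have hPC : 0 < P * C1 := mul_pos hPp hC1p
    obtain ⟨T, hTd⟩ : ∃ T : ℕ → ℝ, T = fun k => ∑ j ∈ Finset.range (k + 1), N j + P * C1 :=
      ⟨_, rfl⟩
    have hTe : ∀ k, T k = ∑ j ∈ Finset.range (k + 1), N j + P * C1 := fun k => by rw [hTd]
    have hT : ∀ k, 0 < T k := fun k => by
      rw [hTe]
      have : 0 ≤ ∑ j ∈ Finset.range (k + 1), N j := Finset.sum_nonneg fun j _ => hN j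
      linarith
    have hTj : ∀ j k, j ≤ k → N j + P * C1 ≤ T k := by
      intro j k hjk
      rw [hTe]
      have : N j ≤ ∑ j ∈ Finset.range (k + 1), N j :=
        Finset.single_le_sum (fun i _ => hN i) (Finset.mem_range.2 (by omega))
      linarith
    obtain ⟨ε, hεd⟩ : ∃ ε : ℕ → ℝ, ε = fun k => δ * (1 / 2) ^ (k + 1) * κ k / (2 * T k) :=
      ⟨_, rfl⟩
    have hεe : ∀ k, ε k = δ * (1 / 2) ^ (k + 1) * κ k / (2 * T k) := fun k => by rw [hεd]
    have hε : ∀ k, 0 < ε k := fun k => by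
      rw [hεe]
      have := hκ k
      have := hT k
      positivity
    choose δ' hδ' hPL using fun k => d2a_PLBnear w W0 S J hS hne h0 Ab hAu hAe (κ k) (hκ k)
    choose ρ hρ hgap using fun k => d2a_gap w W0 Φ S J hS hne h0 h1 (ε k) (hε k)
    obtain ⟨r, hr0, hr1, hr2⟩ := d2a_seq (fun k => min 1 (min (δ' k) (ρ k)))
      (fun k => lt_min one_pos (lt_min (hδ' k) (hρ k)))
    have hr2a : ∀ k, r k ≤ 1 := fun k => (hr2 k).trans (min_le_left _ _)
    have hr2b : ∀ k, r k ≤ δ' k := fun k =>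
      (hr2 k).trans ((min_le_right _ _).trans (min_le_left _ _))
    have hr2c : ∀ k, r k ≤ ρ k := fun k =>
      (hr2 k).trans ((min_le_right _ _).trans (min_le_right _ _))
    have hrm : ∀ j k, j ≤ k → r k ≤ r j := by
      intro j k hjk
      induction hjk with
      | refl => exact le_refl _
      | @step k _ ih =>
        have h2 := hr1 k
        have h3 := hr0 k
        exact le_trans (by linarith) ih
    have hrp : ∀ k, r k ≤ (1 / 2) ^ k := by
      intro k
      induction k with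
      | zero => simpa using hr2a 0
      | succ k ih =>
        have h2 := hr1 k
        rw [pow_succ]
        linarith
    choose ψ hψc hψ01 hψ0 hψ1 hψD using fun k => hcut S (r k) hS hne (hr0 k)
    obtain ⟨b, hbd⟩ : ∃ b : ℕ → ℝ × ℝ → ℝ, b = fun k z => a k z - 5 / 2 * κ k - P * ψ k z :=
      ⟨_, rfl⟩
    have hbe : ∀ k z, b k z = a k z - 5 / 2 * κ k - P * ψ k z := fun k z => by rw [hbd]
    have hbc : ∀ k, Continuous (b k) := fun k => by
      rw [hbd]
      exact ((hac k).sub continuous_const).sub (continuous_const.mul (hψc k))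
    have hble : ∀ k z, b k z ≤ Ab z - 2 * κ k := by
      intro k z
      rw [hbe]
      have h2 := (abs_le.1 (haA k z)).2
      have h3 : 0 ≤ P * ψ k z := mul_nonneg hPp.le (hψ01 k z).1
      linarith
    have hbfar : ∀ k z, r k ≤ Metric.infDist z S → b k z ≤ -C - 1 := by
      intro k z hz
      rw [hbe, hψ1 k z hz]
      have h2 := (abs_le.1 (haA k z)).2
      have h3 := (hAb z).2
      have h4 := hκ k
      linarith
    have hbnear : ∀ k z, Metric.infDist z S ≤ r k / 2 → Ab z - 3 * κ k ≤ b k z := by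
      intro k z hz
      rw [hbe, hψ0 k z hz]
      have h2 := (abs_le.1 (haA k z)).1
      linarith
    obtain ⟨m, hmd⟩ : ∃ m : ℕ → ℝ × ℝ → ℝ, m = fun k z => max (-C - 1) (b k z) := ⟨_, rfl⟩
    have hme : ∀ k z, m k z = max (-C - 1) (b k z) := fun k z => by rw [hmd]
    have hmc : ∀ k, Continuous (m k) := fun k => by
      rw [hmd]
      exact continuous_const.max (hbc k)
    have hmge : ∀ k z, -C - 1 ≤ m k z := fun k z => by rw [hme]; exact le_max_left _ _
    have hmb : ∀ k z, b k z ≤ m k z := fun k z => by rw [hme]; exact le_max_right _ _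
    have hmle : ∀ k z, m k z ≤ Ab z := by
      intro k z
      rw [hme]
      refine max_le ?_ ?_
      · have := (hAb z).1
        linarith
      · have h2 := hble k z
        have h3 := hκ k
        linarith
    have hmfar : ∀ k z, r k ≤ Metric.infDist z S → m k z = -C - 1 := by
      intro k z hz
      rw [hme]
      exact max_eq_left (hbfar k z hz)
    have hmnear : ∀ k z, Metric.infDist z S ≤ r k / 2 → Ab z - 3 * κ k ≤ m k z := fun k z hz =>
      (hbnear k z hz).trans (hmb k z)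
    have hbdd : ∀ z, BddAbove (Set.range fun k => m k z) := by
      intro z
      refine ⟨Ab z, ?_⟩
      rintro _ ⟨k, rfl⟩
      exact hmle k z
    obtain ⟨β, hβd⟩ : ∃ β : ℝ × ℝ → ℝ, β = fun z => ⨆ k, m k z := ⟨_, rfl⟩
    have hβe : ∀ z, β z = ⨆ k, m k z := fun z => by rw [hβd]
    have hmβ : ∀ k z, m k z ≤ β z := fun k z => by rw [hβe]; exact le_ciSup (hbdd z) k
    have hβle : ∀ z M, (∀ k, m k z ≤ M) → β z ≤ M := fun z M h => by
      rw [hβe]; exact ciSup_le h
    have hβA : ∀ z, β z ≤ Ab z := fun z => hβle z _ fun k => hmle k z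
    have hβge : ∀ z, -C - 1 ≤ β z := fun z => (hmge 0 z).trans (hmβ 0 z)
    have hκ0 : ∀ e : ℝ, 0 < e → ∃ k, 3 * κ k < e := by
      intro e he
      obtain ⟨k, hk⟩ := exists_pow_lt_of_lt_one (show 0 < e / 3 by linarith)
        (show (1 / 2 : ℝ) < 1 by norm_num)
      exact ⟨k, by rw [hκe]; linarith⟩
    -- finite maxima
    have hg : ∀ K : ℕ, ∃ g : ℝ × ℝ → ℝ, Continuous g ∧ (∀ z j, j ≤ K → m j z ≤ g z) ∧
        ∀ z, ∃ j, j ≤ K ∧ g z = m j z := by
      intro K
      induction K with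
      | zero =>
        refine ⟨m 0, hmc 0, fun z j hj => ?_, fun z => ⟨0, le_refl _, rfl⟩⟩
        obtain rfl : j = 0 := by omega
        exact le_refl _
      | succ K ih =>
        obtain ⟨g, g1, g2, g3⟩ := ih
        refine ⟨fun z => max (g z) (m (K + 1) z), g1.max (hmc _), fun z j hj => ?_, fun z => ?_⟩
        · rcases Nat.lt_or_ge K j with h | h
          · obtain rfl : j = K + 1 := by omega
            exact le_max_right _ _
          · exact (g2 z j h).trans (le_max_left _ _)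
        · rcases le_total (g z) (m (K + 1) z) with h | h
          · exact ⟨K + 1, le_refl _, max_eq_right h⟩
          · obtain ⟨j, hj, hj'⟩ := g3 z
            exact ⟨j, by omega, (max_eq_left h).trans hj'⟩
    have hβc : Continuous β := by
      refine continuous_of_uniform_approx_of_continuous fun u hu => ?_
      obtain ⟨e, he, hsub⟩ := Metric.mem_uniformity_dist.1 hu
      obtain ⟨K, hK⟩ := hκ0 e he
      obtain ⟨g, g1, g2, g3⟩ := hg K
      refine ⟨g, g1, fun z => hsub ?_⟩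
      obtain ⟨j, hj, hj'⟩ := g3 z
      have h2 : g z ≤ β z := by rw [hj']; exact hmβ j z
      have h3 : β z ≤ g z + 3 * κ K := by
        refine hβle z _ fun i => ?_
        have hκK := hκ K
        rcases Nat.lt_or_ge K i with h | h
        · rcases le_or_gt (r (K + 1)) (Metric.infDist z S) with h4 | h4
          · rw [hmfar i z ((hrm (K + 1) i h).trans h4)]
            have h5 := (hmge 0 z).trans (g2 z 0 (Nat.zero_le K))
            linarith
          · have h5 := hmnear K z (h4.le.trans (hr1 K))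
            have h6 := g2 z K (le_refl K)
            have h7 := hmle i z
            linarith
        · have h5 := g2 z i h
          linarith
      rw [Real.dist_eq, abs_of_nonneg (by linarith)]
      linarith
    have hβS : ∀ z ∈ S, β z = J.a z := by
      intro z hz
      rw [← hAe z hz]
      refine le_antisymm (hβA z) ?_
      refine le_of_forall_pos_le_add fun e he => ?_
      obtain ⟨k, hk⟩ := hκ0 e he
      have hd : Metric.infDist z S = 0 := Metric.infDist_zero_of_mem hz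
      have h2 := hmnear k z (by rw [hd]; have := hr0 k; linarith)
      have h3 := hmβ k z
      linarith
    have hminalt : ∀ z, β z = -C - 1 → (∀ v, 0 ≤ D2 β v z) ∧ PLB W0 z (β z) := by
      intro z hz
      refine ⟨fun v => ?_, d2a_plb_sc hCs z _ (by rw [hz]; linarith)⟩
      show 0 ≤ β (z + v) + β (z - v) - 2 * β z
      have h2 := hβge (z + v)
      have h3 := hβge (z - v)
      rw [hz]
      linarith
    have hcs : ∀ k, T k / (r k) ^ 2 / κ k * (2 * ε k * (r k) ^ 2) = δ * (1 / 2) ^ (k + 1) := by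
      intro k
      have h2 := hT k
      have h3 := hκ k
      have h4 := hr0 k
      rw [hεe]
      field_simp
    have hgeo : HasSum (fun k : ℕ => δ * (1 / 2 : ℝ) ^ (k + 1)) δ := by
      have h2 := (hasSum_geometric_two).mul_left (δ / 2)
      have h3 : δ / 2 * 2 = δ := by ring
      rw [h3] at h2
      have h4 : (fun k : ℕ => δ * (1 / 2 : ℝ) ^ (k + 1)) = fun k : ℕ => δ / 2 * (1 / 2 : ℝ) ^ k := by
        funext k
        rw [pow_succ]; ring
      rw [h4]
      exact h2
    refine ⟨β, fun k => T k / (r k) ^ 2 / κ k, fun k => 2 * ε k * (r k) ^ 2, ⟨hβc,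
      ⟨C + 1, c0, hc0p, fun y => ⟨?_, (hβA y).trans (hAb y).2⟩⟩, hβS, ?_, ?_, ?_, ?_, hon, ?_⟩⟩
    · have := hβge y
      linarith
    · intro k
      have h2 := hT k
      have h3 := hκ k
      have h4 := hr0 k
      positivity
    · intro k
      have h2 := hε k
      have h4 := hr0 k
      positivity
    · have h2 : (fun k => T k / (r k) ^ 2 / κ k * (2 * ε k * (r k) ^ 2)) =
          fun k : ℕ => δ * (1 / 2 : ℝ) ^ (k + 1) := funext hcs
      show Summable fun k => T k / (r k) ^ 2 / κ k * (2 * ε k * (r k) ^ 2)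
      rw [h2]
      exact hgeo.summable
    · show ∑' k, T k / (r k) ^ 2 / κ k * (2 * ε k * (r k) ^ 2) ≤ δ
      rw [tsum_congr hcs, hgeo.tsum_eq]
    · intro z hz
      have hdpos : 0 < Metric.infDist z S :=
        (hS.isClosed.notMem_iff_infDist_pos hne).1 hz
      rcases lt_or_ge (r 0) (Metric.infDist z S) with hfar | hclose
      · left
        refine hminalt z (le_antisymm (hβle z _ fun k => ?_) (hβge z))
        exact (hmfar k z ((hrm 0 k (Nat.zero_le k)).trans hfar.le)).le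
      · -- the shell containing `z`
        have hex : ∃ k, r k < Metric.infDist z S := by
          obtain ⟨k, hk⟩ := exists_pow_lt_of_lt_one hdpos (show (1 / 2 : ℝ) < 1 by norm_num)
          exact ⟨k, (hrp k).trans_lt hk⟩
        obtain ⟨k, hk1, hk2⟩ : ∃ k, r (k + 1) < Metric.infDist z S ∧ Metric.infDist z S ≤ r k := by
          have h2 := Nat.find_spec hex
          have h3 : Nat.find hex ≠ 0 := by
            intro h
            rw [h] at h2
            exact absurd h2 (not_lt.2 hclose)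
          obtain ⟨k, hk⟩ := Nat.exists_eq_succ_of_ne_zero h3
          refine ⟨k, ?_, ?_⟩
          · rw [hk] at h2; exact h2
          · exact not_lt.1 (Nat.find_min hex (m := k) (by omega))
        by_cases hmn : β z = -C - 1
        · exact Or.inl (hminalt z hmn)
        · right
          obtain ⟨g, g1, g2, g3⟩ := hg k
          obtain ⟨j, hj, hj'⟩ := g3 z
          have hβj : β z = m j z := by
            refine le_antisymm (hβle z _ fun i => ?_) (hmβ j z)
            rcases Nat.lt_or_ge k i with h | h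
            · rw [hmfar i z ((hrm (k + 1) i h).trans hk1.le)]
              exact hmge j z
            · rw [← hj']; exact g2 z i h
          have hbj : m j z = b j z := by
            rw [hme]
            refine max_eq_right ?_
            by_contra hcon
            push Not at hcon
            apply hmn
            rw [hβj, hme]
            exact max_eq_left hcon.le
          refine ⟨k, κ k, hκ k, fun v => ?_, ?_, ?_⟩
          · have h2 : D2 (b j) v z ≤ D2 β v z := by
              show b j (z + v) + b j (z - v) - 2 * b j z ≤ β (z + v) + β (z - v) - 2 * β z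
              have h3 := (hmb j (z + v)).trans (hmβ j (z + v))
              have h4 := (hmb j (z - v)).trans (hmβ j (z - v))
              rw [hβj, hbj]
              linarith
            refine le_trans ?_ h2
            have h3 : D2 (b j) v z = D2 (a j) v z - P * D2 (ψ j) v z := by
              unfold D2
              rw [hbe, hbe, hbe]
              ring
            rw [h3]
            have h4 := (abs_le.1 (haD j v z)).1
            have h5 := (abs_le.1 (hψD j v z)).2
            have hsv : 0 ≤ sq v := by unfold sq; positivity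
            have h6 : P * D2 (ψ j) v z ≤ P * (C1 / r j ^ 2 * sq v) :=
              mul_le_mul_of_nonneg_left h5 hPp.le
            have hrk := hr0 k
            have hrj := hr0 j
            have h7 : N j + P * (C1 / r j ^ 2) ≤ T k / r k ^ 2 := by
              have h8 : r k ^ 2 ≤ r j ^ 2 := pow_le_pow_left₀ hrk.le (hrm j k hj) 2
              have h9 : r k ^ 2 ≤ 1 := pow_le_one₀ hrk.le (hr2a k)
              have h10 : 0 < r k ^ 2 := by positivity
              have h11 : 0 < r j ^ 2 := by positivity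
              rw [le_div_iff₀ h10]
              have h12 : N j * r k ^ 2 ≤ N j := by
                have := hN j
                nlinarith
              have h13 : P * (C1 / r j ^ 2) * r k ^ 2 ≤ P * C1 := by
                have h14 : P * (C1 / r j ^ 2) * r k ^ 2 = P * C1 * (r k ^ 2 / r j ^ 2) := by ring
                rw [h14]
                have h15 : r k ^ 2 / r j ^ 2 ≤ 1 := (div_le_one h11).2 h8
                nlinarith
              have := hTj j k hj
              nlinarith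
            have hκk := hκ k
            have h16 : T k / r k ^ 2 / κ k * κ k = T k / r k ^ 2 := by field_simp
            show -(T k / r k ^ 2 / κ k * κ k) * sq v ≤ D2 (a j) v z - P * D2 (ψ j) v z
            rw [h16]
            nlinarith
          · refine d2a_plb_mono (hPL k z (hk2.trans (hr2b k))) ?_
            rw [hβj, hbj]
            have h2 := hble j z
            have h3 := hκm j k hj
            linarith
          · have h2 := hgap k z (hk2.trans (hr2c k))
            have h3 := hε k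
            have h4 : (Metric.infDist z S) ^ 2 ≤ r k ^ 2 := pow_le_pow_left₀ hdpos.le hk2 2
            have h5 : 0 < r k ^ 2 := by have := hr0 k; positivity
            show Φ z - W0 z < 2 * ε k * r k ^ 2
            nlinarith [mul_le_mul_of_nonneg_left h4 h3.le, mul_pos h3 h5]

end Pool.Agent.MP_4eca41
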