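import Pool.Agent.Work.MP_4eca41_an.Defs

/-!
# Definitions of block D2 (FIXED)
-/

set_option autoImplicit false

open Set MeasureTheory

namespace Pool.Agent.MP_4eca41

/-- Pointwise lower bound `m` for the second derivative of `q` in `p` at `z`. -/
def PLB (q : ℝ × ℝ → ℝ) (z : ℝ × ℝ) (m : ℝ) : Prop :=
  ∀ ε : ℝ, 0 < ε → ∃ h0 : ℝ, 0 < h0 ∧ ∀ h : ℝ, 0 < h → h < h0 → (m - ε) * h ^ 2 ≤ D2 q (h, 0) z

/-- The data needed for the regularity lemma: `β` and two sequences `c`, `s`. -/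
structure Reg (W0 Φ β : ℝ × ℝ → ℝ) (S : Set (ℝ × ℝ)) (J : Jets) (δ : ℝ) (c s : ℕ → ℝ) : Prop where
  cont : Continuous β
  bd : ∃ C c0 : ℝ, 0 < c0 ∧ ∀ y, -C ≤ β y ∧ β y ≤ -c0
  eq : ∀ y ∈ S, β y = J.a y
  cnn : ∀ k, 0 ≤ c k
  spos : ∀ k, 0 < s k
  summ : Summable fun k => c k * s k
  sum : ∑' k, c k * s k ≤ δ
  on : ∀ z ∈ S, PLB W0 z (J.a z)
  off : ∀ z, z ∉ S → ((∀ v, 0 ≤ D2 β v z) ∧ PLB W0 z (β z)) ∨
    ∃ (k : ℕ) (κ : ℝ), 0 < κ ∧ (∀ v, -(c k * κ) * sq v ≤ D2 β v z) ∧ PLB W0 z (β z + κ) ∧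
      Φ z - W0 z < s k

end Pool.Agent.MP_4eca41
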